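import Pool.Agent.T6.H79.SC.Defs

set_option autoImplicit false

namespace Pool.Agent.T6.H79.SC

open Finset

open Classical in
/-- the rows in which `a` precedes all of `S` -/
noncomputable def good {ι κ : Type*} [Fintype ι] (ρ : ι → κ → ℕ) (a : κ) (S : Finset κ) :
    Finset ι := univ.filter fun r : ι => ∀ b ∈ S, ρ r a < ρ r b

theorem mem_good {ι κ : Type*} [Fintype ι] (ρ : ι → κ → ℕ) (a : κ) (S : Finset κ) (r : ι) :
    r ∈ good ρ a S ↔ ∀ b ∈ S, ρ r a < ρ r b := by
  simp [good]

/-- rank functions of the rows of a core -/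
def Core {ι κ : Type*} [Fintype ι] (t : ℕ) (ρ : ι → κ → ℕ) : Prop :=
  (∀ r, Function.Injective (ρ r)) ∧ ∀ a : κ, ∀ S : Finset κ, a ∉ S → S.card ≤ t - 1 →
    t ≤ S.card + (good ρ a S).card

theorem sort_lt {v : ℕ} (f : Fin v → ℕ) (hf : Function.Injective f) (a b : Fin v) :
    (Tuple.sort f).symm a < (Tuple.sort f).symm b ↔ f a < f b := by
  have hm : StrictMono (f ∘ Tuple.sort f) :=
    (Tuple.monotone_sort f).strictMono_of_injective (hf.comp (Tuple.sort f).injective)
  have h := hm.lt_iff_lt (a := (Tuple.sort f).symm a) (b := (Tuple.sort f).symm b)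
  simpa using h.symm

theorem array_of_rank {N v t : ℕ} (f : Fin N → Fin v → ℕ) (hf : ∀ r, Function.Injective (f r))
    (h : ∀ a : Fin v, ∀ S : Finset (Fin v), a ∉ S → S.card = t - 1 →
      ∃ r : Fin N, ∀ b ∈ S, f r a < f r b) :
    ∃ A : Fin N → Equiv.Perm (Fin v), Suitable N v t A := by
  refine ⟨fun r => Tuple.sort (f r), ?_⟩
  intro a S ha hS
  obtain ⟨r, hr⟩ := h a S ha hS
  exact ⟨r, fun b hb => (sort_lt (f r) (hf r) a b).2 (hr b hb)⟩

theorem array_down {N v t : ℕ} (h : ∃ A : Fin N → Equiv.Perm (Fin (v + 1)), Suitable N (v + 1) t A) :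
    ∃ A : Fin N → Equiv.Perm (Fin v), Suitable N v t A := by
  obtain ⟨A, hA⟩ := h
  refine array_of_rank (fun r a => (((A r).symm a.castSucc : Fin (v + 1)) : ℕ)) ?_ ?_
  · intro r a b hab
    have h1 : (A r).symm a.castSucc = (A r).symm b.castSucc := Fin.ext hab
    exact Fin.castSucc_injective _ ((A r).symm.injective h1)
  · intro a S ha hS
    obtain ⟨r, hr⟩ := hA a.castSucc (S.map Fin.castSuccEmb) (by
      simp only [mem_map, not_exists, not_and]
      intro x hx hxa
      have : x = a := Fin.castSucc_injective _ hxa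
      exact ha (this ▸ hx)) (by rw [card_map, hS])
    refine ⟨r, fun b hb => ?_⟩
    exact hr b.castSucc (mem_map.2 ⟨b, hb, rfl⟩)

theorem array_down_le {N v w t : ℕ} (hvw : v ≤ w)
    (h : ∃ A : Fin N → Equiv.Perm (Fin w), Suitable N w t A) :
    ∃ A : Fin N → Equiv.Perm (Fin v), Suitable N v t A := by
  obtain ⟨d, rfl⟩ := Nat.exists_eq_add_of_le hvw
  induction d with
  | zero => exact h
  | succ d ih => exact ih (by omega) (array_down h)

theorem greedy {N : ℕ} {α : Type*} [Fintype α] [DecidableEq α] (hN : N ≤ Fintype.card α)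
    (f : Fin N → α → ℕ) (hf : ∀ r, Function.Injective (f r)) (R : Finset (Fin N)) :
    ∃ x : Fin N → α, Set.InjOn x R ∧ ∀ r ∈ R, ∀ a, (∀ r' ∈ R, x r' ≠ a) → f r (x r) < f r a := by
  classical
  induction R using Finset.induction_on with
  | empty =>
    rcases isEmpty_or_nonempty α with hα | hα
    · have h0 : Fintype.card α = 0 := Fintype.card_eq_zero
      have hN0 : N = 0 := by omega
      subst hN0
      exact ⟨fun r => r.elim0, by simp, by simp⟩
    · exact ⟨fun _ => Classical.arbitrary α, by simp, by simp⟩
  | insert r0 R hr0 ih =>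
    obtain ⟨x, hx, hx2⟩ := ih
    have hcard : (R.image x).card < Fintype.card α := by
      have h1 : (R.image x).card ≤ R.card := card_image_le
      have h2 : (insert r0 R).card ≤ N := by
        simpa using card_le_univ (insert r0 R)
      rw [card_insert_of_notMem hr0] at h2
      omega
    have hne : ((R.image x)ᶜ).Nonempty := by
      rw [← card_pos, card_compl]
      omega
    obtain ⟨y, hy, hy2⟩ := exists_min_image _ (f r0) hne
    rw [mem_compl, mem_image] at hy
    have hxy : ∀ r' ∈ R, x r' ≠ y := fun r' hr' h => hy ⟨r', hr', h⟩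
    have hne0 : ∀ r ∈ R, r ≠ r0 := fun r hr h => hr0 (h ▸ hr)
    refine ⟨Function.update x r0 y, ?_, ?_⟩
    · intro r hr r' hr' h
      rw [coe_insert] at hr hr'
      rcases hr with rfl | hr
      · rcases hr' with rfl | hr'
        · rfl
        · rw [Function.update_self, Function.update_of_ne (hne0 r' hr')] at h
          exact absurd h.symm (hxy r' hr')
      · rcases hr' with rfl | hr'
        · rw [Function.update_self, Function.update_of_ne (hne0 r hr)] at h
          exact absurd h (hxy r hr)
        · rw [Function.update_of_ne (hne0 r hr), Function.update_of_ne (hne0 r' hr')] at h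
          exact hx hr hr' h
    · intro r hr a ha
      have ha1 : ∀ r' ∈ R, x r' ≠ a := by
        intro r' hr'
        have := ha r' (mem_insert_of_mem hr')
        rwa [Function.update_of_ne (hne0 r' hr')] at this
      have ha0 : y ≠ a := by
        have := ha r0 (mem_insert_self _ _)
        rwa [Function.update_self] at this
      rcases mem_insert.1 hr with rfl | hr
      · rw [Function.update_self]
        have hmem : a ∈ (R.image x)ᶜ := by
          rw [mem_compl, mem_image]
          rintro ⟨r', hr', h⟩
          exact ha1 r' hr' h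
        exact lt_of_le_of_ne (hy2 a hmem) (fun h => ha0 (hf r h))
      · rw [Function.update_of_ne (hne0 r hr)]
        exact hx2 r hr a ha1

theorem core_of_array {N k t : ℕ} (ht : 1 ≤ t) (hN : t ≤ N)
    (h : ∃ A : Fin N → Equiv.Perm (Fin (N + k)), Suitable N (N + k) t A) :
    ∃ (κ : Type) (_ : Fintype κ) (ρ : Fin N → κ → ℕ), Fintype.card κ = k ∧ Core t ρ := by
  classical
  obtain ⟨A, hA⟩ := h
  let f : Fin N → Fin (N + k) → ℕ := fun r a => (((A r).symm a : Fin (N + k)) : ℕ)
  have hf : ∀ r, Function.Injective (f r) := by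
    intro r a b hab
    exact (A r).symm.injective (Fin.ext hab)
  obtain ⟨x, hx, hx2⟩ := greedy (by simp) f hf (univ : Finset (Fin N))
  have hxi : Function.Injective x := fun a b hab => hx (by simp) (by simp) hab
  refine ⟨{a : Fin (N + k) // ∀ r, x r ≠ a}, inferInstance, fun r a => f r a.1, ?_, ?_, ?_⟩
  · have h1 : Fintype.card {a : Fin (N + k) // ∀ r, x r ≠ a} = ((univ.image x)ᶜ).card := by
      rw [Fintype.card_subtype]
      congr 1
      ext a
      simp
    rw [h1, card_compl, card_image_of_injective _ hxi]
    simp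
  · intro r a b hab
    exact Subtype.ext (hf r hab)
  · intro a S haS hS
    by_contra hlt
    rw [not_le] at hlt
    set G : Finset (Fin N) := good (fun r (a : {a : Fin (N + k) // ∀ r, x r ≠ a}) => f r a.1) a S
      with hG
    let S' : Finset (Fin (N + k)) := S.map (Function.Embedding.subtype _) ∪ G.image x
    have hS' : S'.card ≤ t - 1 := by
      have h1 : S'.card ≤ (S.map (Function.Embedding.subtype _)).card + (G.image x).card :=
        card_union_le _ _
      have h2 : (G.image x).card ≤ G.card := card_image_le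
      rw [card_map] at h1
      have h3 : S.card + G.card < t := hlt
      omega
    have hsub : S' ⊆ univ.erase a.1 := by
      intro y hy
      rw [mem_erase]
      refine ⟨?_, mem_univ _⟩
      rintro rfl
      rcases mem_union.1 hy with h | h
      · obtain ⟨b, hb, hb2⟩ := mem_map.1 h
        have : b = a := Subtype.ext hb2
        exact haS (this ▸ hb)
      · obtain ⟨r, _, hr⟩ := mem_image.1 h
        exact a.2 r hr
    obtain ⟨S'', h1, h2, h3⟩ := exists_subsuperset_card_eq hsub hS' (by
      rw [card_erase_of_mem (mem_univ _), card_univ, Fintype.card_fin]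
      omega)
    have haS'' : a.1 ∉ S'' := fun h => by
      have := h2 h
      simp at this
    obtain ⟨r, hr⟩ := hA a.1 S'' haS'' h3
    have hrG : r ∈ G := by
      rw [hG, mem_good]
      refine fun b hb => ?_
      exact hr b.1 (h1 (mem_union_left _ (mem_map.2 ⟨b, hb, rfl⟩)))
    have hxr : f r a.1 < f r (x r) := hr (x r) (h1 (mem_union_right _ (mem_image_of_mem _ hrG)))
    have := hx2 r (mem_univ _) a.1 (fun r' _ => a.2 r')
    omega

theorem array_of_core {N k t : ℕ} (ht : 1 ≤ t) {κ : Type*} [Fintype κ] (hk : Fintype.card κ = k)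
    (ρ : Fin N → κ → ℕ) (h : Core t ρ) :
    ∃ A : Fin N → Equiv.Perm (Fin (N + k)), Suitable N (N + k) t A := by
  classical
  obtain ⟨hinj, hcore⟩ := h
  let τ : Fin N → Fin N ⊕ κ → ℕ := fun r u => match u with
    | Sum.inl r' => if r' = r then 0 else (univ.sup (ρ r)) + 2 + r'
    | Sum.inr b => ρ r b + 1
  have hle : ∀ r b, ρ r b ≤ univ.sup (ρ r) := fun r b => le_sup (mem_univ b)
  have hτ : ∀ r, Function.Injective (τ r) := by
    intro r u w huw
    rcases u with u | u <;> rcases w with w | w
    · simp only [τ] at huw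
      by_cases hu : u = r <;> by_cases hw : w = r
      · rw [hu, hw]
      · rw [if_pos hu, if_neg hw] at huw; omega
      · rw [if_neg hu, if_pos hw] at huw; omega
      · rw [if_neg hu, if_neg hw] at huw
        congr 1
        apply Fin.ext
        omega
    · simp only [τ] at huw
      have := hle r w
      by_cases hu : u = r
      · rw [if_pos hu] at huw; omega
      · rw [if_neg hu] at huw; omega
    · simp only [τ] at huw
      have := hle r u
      by_cases hw : w = r
      · rw [if_pos hw] at huw; omega
      · rw [if_neg hw] at huw; omega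
    · simp only [τ] at huw
      congr 1
      exact hinj r (by omega)
  have hcard : Fintype.card (Fin N ⊕ κ) = N + k := by simp [hk]
  let E : Fin (N + k) ≃ Fin N ⊕ κ := (Fintype.equivFinOfCardEq hcard).symm
  refine array_of_rank (fun r a => τ r (E a)) (fun r => (hτ r).comp E.injective) ?_
  intro a S haS hS
  rcases ha : E a with r | c
  · refine ⟨r, fun b hb => ?_⟩
    have hne : E b ≠ E a := fun h => haS ((E.injective h) ▸ hb)
    rw [ha] at hne
    rcases hEb : E b with r' | c'
    · rw [hEb] at hne
      have : r' ≠ r := fun h => hne (by rw [h])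
      simp only [τ, if_neg this, if_true]
      omega
    · simp only [τ, if_true]
      omega
  · let SC : Finset κ := univ.filter fun b => E.symm (Sum.inr b) ∈ S
    let SF : Finset (Fin N) := univ.filter fun r => E.symm (Sum.inl r) ∈ S
    have hsplit : SC.card + SF.card = S.card := by
      have h1 : (S.map E.toEmbedding) = SF.disjSum SC := by
        ext u
        simp only [mem_map, Equiv.coe_toEmbedding, mem_disjSum]
        constructor
        · rintro ⟨w, hw, rfl⟩
          rcases hEw : E w with r' | c'
          · left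
            refine ⟨r', ?_, rfl⟩
            simp only [SF, mem_filter, mem_univ, true_and]
            rw [← hEw]
            simpa using hw
          · right
            refine ⟨c', ?_, rfl⟩
            simp only [SC, mem_filter, mem_univ, true_and]
            rw [← hEw]
            simpa using hw
        · rintro (⟨r', hr', rfl⟩ | ⟨c', hc', rfl⟩)
          · simp only [SF, mem_filter, mem_univ, true_and] at hr'
            exact ⟨_, hr', by simp⟩
          · simp only [SC, mem_filter, mem_univ, true_and] at hc'
            exact ⟨_, hc', by simp⟩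
      have h2 : (S.map E.toEmbedding).card = S.card := card_map _
      rw [h1, card_disjSum] at h2
      omega
    have hc : c ∉ SC := by
      simp only [SC, mem_filter, mem_univ, true_and]
      rw [← ha]
      simpa using haS
    have hge := hcore c SC hc (by omega)
    have hlt : SF.card < (good ρ c SC).card := by omega
    obtain ⟨r, hr, hrS⟩ := exists_mem_notMem_of_card_lt_card hlt
    rw [mem_good] at hr
    refine ⟨r, fun b hb => ?_⟩
    rcases hEb : E b with r' | c'
    · have hne : r' ≠ r := by
        rintro rfl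
        apply hrS
        simp only [SF, mem_filter, mem_univ, true_and]
        rw [← hEb]
        simpa using hb
      simp only [τ, if_neg hne]
      have := hle r c
      omega
    · have hc' : c' ∈ SC := by
        simp only [SC, mem_filter, mem_univ, true_and]
        rw [← hEb]
        simpa using hb
      have := hr c' hc'
      simp only [τ]
      omega

/-- more rows never hurt -/
theorem core_more {ι κ : Type*} [Fintype ι] [Fintype κ] {t N : ℕ} (hN : Fintype.card ι ≤ N)
    (ρ : ι → κ → ℕ) (h : Core t ρ) : ∃ ρ' : Fin N → κ → ℕ, Core t ρ' := by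
  classical
  obtain ⟨g⟩ : Nonempty (ι ↪ Fin N) := Function.Embedding.nonempty_of_card_le (by simpa using hN)
  let ρ' : Fin N → κ → ℕ := fun n => if hn : ∃ i, g i = n then ρ hn.choose else
    fun b => (Fintype.equivFin κ b : ℕ)
  have hg : ∀ i, ρ' (g i) = ρ i := by
    intro i
    have hn : ∃ i', g i' = g i := ⟨i, rfl⟩
    simp only [ρ', dif_pos hn]
    congr 1
    exact g.injective hn.choose_spec
  refine ⟨ρ', ?_, ?_⟩
  · intro n
    by_cases hn : ∃ i, g i = n
    · obtain ⟨i, rfl⟩ := hn
      rw [hg]
      exact h.1 i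
    · simp only [ρ', dif_neg hn]
      intro a b hab
      exact (Fintype.equivFin κ).injective (Fin.ext hab)
  · intro a S haS hS
    refine (h.2 a S haS hS).trans ?_
    have : (good ρ a S).card ≤ (good ρ' a S).card := by
      rw [← card_map g]
      apply card_le_card
      intro n hn
      obtain ⟨i, hi, rfl⟩ := mem_map.1 hn
      rw [mem_good] at hi ⊢
      rw [hg]
      exact hi
    omega

/-- there is a core with `k` symbols -/
def HasCore (s ℓ k : ℕ) : Prop :=
  ∃ (κ : Type) (_ : Fintype κ) (ρ : Fin ((s + 1) ^ 2 + ℓ) → κ → ℕ),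
    Fintype.card κ = k ∧ Core (2 * s + 1) ρ

theorem isV_iff (s ℓ : ℕ) : IsV (2 * s + 1) ((s + 1) ^ 2 + ℓ) ((s + 1) ^ 2 + ℓ + (s + 2)) ↔
    HasCore s ℓ (s + 2) ∧ ¬ HasCore s ℓ (s + 3) := by
  have ht : 2 * s + 1 ≤ (s + 1) ^ 2 + ℓ := by nlinarith
  have key : ∀ k, HasCore s ℓ k ↔
      ∃ A : Fin ((s + 1) ^ 2 + ℓ) → Equiv.Perm (Fin ((s + 1) ^ 2 + ℓ + k)),
        Suitable ((s + 1) ^ 2 + ℓ) ((s + 1) ^ 2 + ℓ + k) (2 * s + 1) A := by
    intro k
    constructor
    · rintro ⟨κ, _, ρ, hk, hρ⟩
      exact array_of_core (by omega) hk ρ hρ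
    · intro h
      obtain ⟨κ, _, ρ, hk, hρ⟩ := core_of_array (by omega) ht h
      exact ⟨κ, _, ρ, hk, hρ⟩
  rw [key, key]
  constructor
  · rintro ⟨⟨_, h1⟩, h2⟩
    refine ⟨h1, fun h3 => ?_⟩
    have := h2 ⟨by omega, h3⟩
    omega
  · rintro ⟨h1, h2⟩
    refine ⟨⟨by omega, h1⟩, ?_⟩
    rintro v ⟨_, hv⟩
    by_contra hlt
    rw [not_le] at hlt
    exact h2 (array_down_le (by omega) hv)

end Pool.Agent.T6.H79.SC
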