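import Pool.Agent.T6.H79.SC.Defs

set_option autoImplicit false

namespace Pool.Agent.T6.H79.SC

open Finset

/-- all cliques of colour `i`, `j`, `k` of a set coloured with these have sizes at most
`a`, `b`, `c` ⟹ the set has at most `n` elements -/
def Bd (a b c n : ℕ) : Prop := ∀ (γ ν : Type) [DecidableEq γ] [DecidableEq ν] (χ : ν → ν → γ)
  (i j k : γ), i ≠ j → i ≠ k → j ≠ k → (∀ u v, χ u v = χ v u) → ∀ A : Finset ν,
  (∀ u ∈ A, ∀ v ∈ A, u ≠ v → χ u v = i ∨ χ u v = j ∨ χ u v = k) →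
  (∀ B ⊆ A, (∀ u ∈ B, ∀ v ∈ B, u ≠ v → χ u v = i) → B.card ≤ a) →
  (∀ B ⊆ A, (∀ u ∈ B, ∀ v ∈ B, u ≠ v → χ u v = j) → B.card ≤ b) →
  (∀ B ⊆ A, (∀ u ∈ B, ∀ v ∈ B, u ≠ v → χ u v = k) → B.card ≤ c) → A.card ≤ n

theorem Bd.swap12 {a b c n : ℕ} (h : Bd a b c n) : Bd b a c n := by
  intro γ ν _ _ χ i j k hij hik hjk hs A h1 h2 h3 h4
  refine h γ ν χ j i k hij.symm hjk hik hs A ?_ h3 h2 h4
  intro u hu v hv huv
  rcases h1 u hu v hv huv with h | h | h
  · exact Or.inr (Or.inl h)
  · exact Or.inl h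
  · exact Or.inr (Or.inr h)

theorem Bd.swap23 {a b c n : ℕ} (h : Bd a b c n) : Bd a c b n := by
  intro γ ν _ _ χ i j k hij hik hjk hs A h1 h2 h3 h4
  refine h γ ν χ i k j hik hij hjk.symm hs A ?_ h2 h4 h3
  intro u hu v hv huv
  rcases h1 u hu v hv huv with h | h | h
  · exact Or.inl h
  · exact Or.inr (Or.inr h)
  · exact Or.inr (Or.inl h)

theorem Bd.zero1 (b c : ℕ) : Bd 0 b c 0 := by
  intro γ ν _ _ χ i j k hij hik hjk hs A h1 h2 h3 h4
  by_contra h
  rw [not_le, card_pos] at h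
  obtain ⟨v, hv⟩ := h
  have := h2 {v} (singleton_subset_iff.2 hv) (by
    intro u hu w hw huw
    rw [mem_singleton] at hu hw
    exact absurd (hu.trans hw.symm) huw)
  simp at this

theorem Bd.step {a b c n1 n2 n3 : ℕ} (H1 : Bd a (b + 1) (c + 1) n1) (H2 : Bd (a + 1) b (c + 1) n2)
    (H3 : Bd (a + 1) (b + 1) c n3) : Bd (a + 1) (b + 1) (c + 1) (1 + n1 + n2 + n3) := by
  intro γ ν _ _ χ i j k hij hik hjk hs A h1 h2 h3 h4
  rcases A.eq_empty_or_nonempty with hA | ⟨v, hv⟩
  · simp [hA]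
  let N : γ → Finset ν := fun q => (A.erase v).filter fun u => χ v u = q
  have hNA : ∀ q, N q ⊆ A := fun q => (filter_subset _ _).trans (erase_subset _ _)
  have hcov : A.erase v ⊆ N i ∪ (N j ∪ N k) := by
    intro u hu
    have hu' := mem_erase.1 hu
    rcases h1 v hv u hu'.2 hu'.1.symm with h | h | h
    · exact mem_union_left _ (mem_filter.2 ⟨hu, h⟩)
    · exact mem_union_right _ (mem_union_left _ (mem_filter.2 ⟨hu, h⟩))
    · exact mem_union_right _ (mem_union_right _ (mem_filter.2 ⟨hu, h⟩))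
  have hcard : A.card ≤ 1 + (N i).card + (N j).card + (N k).card := by
    have e1 := card_le_card hcov
    have e2 := card_union_le (N i) (N j ∪ N k)
    have e3 := card_union_le (N j) (N k)
    have e4 := card_erase_add_one hv
    omega
  have hins : ∀ (q : γ) (d : ℕ), (∀ B ⊆ A, (∀ u ∈ B, ∀ w ∈ B, u ≠ w → χ u w = q) → B.card ≤ d + 1) →
      ∀ B ⊆ N q, (∀ u ∈ B, ∀ w ∈ B, u ≠ w → χ u w = q) → B.card ≤ d := by
    intro q d hd B hB hBq
    have hvB : v ∉ B := fun h => by
      have := hB h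
      simp [N] at this
    have := hd (insert v B) (insert_subset hv (hB.trans (hNA q))) (by
      intro u hu w hw huw
      rcases mem_insert.1 hu with h | h <;> rcases mem_insert.1 hw with h' | h'
      · exact absurd (h.trans h'.symm) huw
      · rw [h]; exact (mem_filter.1 (hB h')).2
      · rw [h', hs]; exact (mem_filter.1 (hB h)).2
      · exact hBq u h w h' huw)
    rw [card_insert_of_notMem hvB] at this
    omega
  have b1 := H1 γ ν χ i j k hij hik hjk hs (N i) (fun u hu w hw => h1 u (hNA _ hu) w (hNA _ hw))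
    (hins i a h2) (fun B hB => h3 B (hB.trans (hNA _))) (fun B hB => h4 B (hB.trans (hNA _)))
  have b2 := H2 γ ν χ i j k hij hik hjk hs (N j) (fun u hu w hw => h1 u (hNA _ hu) w (hNA _ hw))
    (fun B hB => h2 B (hB.trans (hNA _))) (hins j b h3) (fun B hB => h4 B (hB.trans (hNA _)))
  have b3 := H3 γ ν χ i j k hij hik hjk hs (N k) (fun u hu w hw => h1 u (hNA _ hu) w (hNA _ hw))
    (fun B hB => h2 B (hB.trans (hNA _))) (fun B hB => h3 B (hB.trans (hNA _))) (hins k c h4)
  omega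

/-- the recursive upper bound (`n` = fuel), with `8` for `{3,2,1}` -/
def UF : ℕ → ℕ → ℕ → ℕ → ℕ
  | 0, _, _, _ => 0
  | n + 1, a, b, c => if a = 0 ∨ b = 0 ∨ c = 0 then 0 else
      if a + b + c = 6 ∧ a * b * c = 6 then 8 else
      1 + UF n (a - 1) b c + UF n a (b - 1) c + UF n a b (c - 1)

theorem bd321 (hP : StmtP) : Bd 3 2 1 8 := by
  intro γ ν _ _ χ i j k hij hik hjk hs A h1 h2 h3 h4
  by_contra hlt
  rw [not_le] at hlt
  obtain ⟨A', hA', hcard⟩ := exists_subset_card_eq (show 9 ≤ A.card by omega)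
  have h1' : ∀ u ∈ A', ∀ v ∈ A', u ≠ v → χ u v = i ∨ χ u v = j := by
    intro u hu v hv huv
    rcases h1 u (hA' hu) v (hA' hv) huv with h | h | h
    · exact Or.inl h
    · exact Or.inr h
    · exfalso
      have := h4 {u, v} (by
        intro x hx
        rcases mem_insert.1 hx with rfl | hx
        · exact hA' hu
        · rw [mem_singleton] at hx; subst hx; exact hA' hv) (by
        intro x hx y hy hxy
        rcases mem_insert.1 hx with rfl | hx
        · rcases mem_insert.1 hy with rfl | hy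
          · exact absurd rfl hxy
          · rw [mem_singleton] at hy; subst hy; exact h
        · rw [mem_singleton] at hx; subst hx
          rcases mem_insert.1 hy with rfl | hy
          · rw [hs]; exact h
          · rw [mem_singleton] at hy; subst hy; exact absurd rfl hxy)
      rw [card_pair huv] at this
      omega
  rcases hP χ i j hij hs A' hcard h1' with ⟨B, hB, hBc, hBi⟩ | ⟨B, hB, hBc, hBj⟩
  · have := h2 B (hB.trans hA') hBi
    omega
  · have := h3 B (hB.trans hA') hBj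
    omega

theorem bd_UF (hP : StmtP) : ∀ n a b c : ℕ, a + b + c ≤ n → Bd a b c (UF n a b c) := by
  intro n
  induction n with
  | zero =>
    intro a b c h
    have : a = 0 := by omega
    subst this
    exact Bd.zero1 b c
  | succ n ih =>
    intro a b c h
    rw [UF]
    split_ifs with h0 h6
    · rcases h0 with rfl | rfl | rfl
      · exact Bd.zero1 b c
      · exact (Bd.zero1 a c).swap12
      · exact (Bd.zero1 a b).swap12.swap23
    · obtain ⟨h6, h7⟩ := h6
      have ha : a ≤ 6 := by omega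
      have hb : b ≤ 6 := by omega
      have hc : c = 6 - a - b := by omega
      have base := bd321 @hP
      subst hc
      interval_cases a <;> interval_cases b <;> simp at h7 h0 ⊢
      · exact base.swap12.swap23.swap12
      · exact base.swap23.swap12
      · exact base.swap12.swap23
      · exact base.swap12
      · exact base.swap23
      · exact base
    · rw [not_or, not_or] at h0
      obtain ⟨a, rfl⟩ := Nat.exists_eq_succ_of_ne_zero h0.1
      obtain ⟨b, rfl⟩ := Nat.exists_eq_succ_of_ne_zero h0.2.1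
      obtain ⟨c, rfl⟩ := Nat.exists_eq_succ_of_ne_zero h0.2.2
      exact Bd.step (ih a (b + 1) (c + 1) (by omega)) (ih (a + 1) b (c + 1) (by omega))
        (ih (a + 1) (b + 1) c (by omega))

theorem RamProp.mono {γ : Type*} {T : Finset γ} {e : γ → ℕ} {n m : ℕ} (h : RamProp T e n)
    (hnm : n ≤ m) : RamProp T e m := by
  intro χ hs hT
  obtain ⟨q, hq, B, hB, hB2⟩ := h (fun i j => χ (Fin.castLE hnm i) (Fin.castLE hnm j))
    (fun i j => hs _ _) (fun i j hij => hT _ _ (fun h => hij (Fin.castLE_injective hnm h)))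
  refine ⟨q, hq, B.map (Fin.castLEEmb hnm), by rw [card_map, hB], ?_⟩
  intro i hi j hj hij
  obtain ⟨i', hi', rfl⟩ := mem_map.1 hi
  obtain ⟨j', hj', rfl⟩ := mem_map.1 hj
  exact hB2 i' hi' j' hj' (fun h => hij (by rw [h]))

theorem not_ramProp_iff {γ : Type*} {T : Finset γ} {e : γ → ℕ} {n : ℕ} : ¬ RamProp T e n ↔
    ∃ χ : Fin n → Fin n → γ, (∀ i j, χ i j = χ j i) ∧ (∀ i j, i ≠ j → χ i j ∈ T) ∧
      ∀ q ∈ T, ∀ B : Finset (Fin n), (∀ i ∈ B, ∀ j ∈ B, i ≠ j → χ i j = q) → B.card ≤ e q := by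
  constructor
  · intro h
    simp only [RamProp, not_forall] at h
    obtain ⟨χ, hs, hT, h⟩ := h
    refine ⟨χ, hs, hT, ?_⟩
    intro q hq B hB
    by_contra hlt
    rw [not_le] at hlt
    obtain ⟨B', hB', hc⟩ := exists_subset_card_eq (show e q + 1 ≤ B.card by omega)
    exact h ⟨q, hq, B', hc, fun i hi j hj => hB i (hB' hi) j (hB' hj)⟩
  · rintro ⟨χ, hs, hT, h⟩ hR
    obtain ⟨q, hq, B, hB, hB2⟩ := hR χ hs hT
    have := h q hq B hB2
    omega

theorem le_of_not_ramProp {γ : Type} [DecidableEq γ] {T : Finset γ} {e : γ → ℕ} {n : ℕ}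
    (h : ¬ RamProp T e n) {i j k : γ} (hij : i ≠ j) (hik : i ≠ k) (hjk : j ≠ k)
    (hT : T = {i, j, k}) {u : ℕ} (hB : Bd (e i) (e j) (e k) u) : n ≤ u := by
  obtain ⟨χ, hs, hc, h⟩ := not_ramProp_iff.1 h
  have h1 := hB γ (Fin n) χ i j k hij hik hjk hs univ (by
    intro u _ v _ huv
    have := hc u v huv
    rw [hT] at this
    simpa using this) (fun B _ => h i (by simp [hT]) B) (fun B _ => h j (by simp [hT]) B)
    (fun B _ => h k (by simp [hT]) B)
  simpa using h1

theorem exists_bd : ∀ n a b c : ℕ, a + b + c ≤ n → Bd a b c (3 ^ (a + b + c)) ∧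
    ∃ u, 2 * u + 1 = 3 ^ (a + b + c) ∧ Bd a b c u := by
  intro n
  have key : ∀ n a b c : ℕ, a + b + c ≤ n →
    ∃ u, 2 * u + 1 = 3 ^ (a + b + c) ∧ Bd a b c u := by
    intro n
    have odd : ∀ k, ∃ u, 2 * u + 1 = 3 ^ k := by
      intro k
      obtain ⟨u, hu⟩ : Odd (3 ^ k) := Odd.pow (by decide)
      exact ⟨u, hu.symm⟩
    have mono : ∀ {a b c u u'}, Bd a b c u → u ≤ u' → Bd a b c u' := by
      intro a b c u u' h huu γ ν _ _ χ i j k hij hik hjk hs A h1 h2 h3 h4
      exact (h γ ν χ i j k hij hik hjk hs A h1 h2 h3 h4).trans huu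
    induction n with
    | zero =>
      intro a b c h
      have ha : a = 0 := by omega
      subst ha
      obtain ⟨u, hu⟩ := odd (0 + b + c)
      exact ⟨u, hu, mono (Bd.zero1 b c) (Nat.zero_le _)⟩
    | succ n ih =>
      intro a b c h
      by_cases h0 : a = 0 ∨ b = 0 ∨ c = 0
      · obtain ⟨u, hu⟩ := odd (a + b + c)
        refine ⟨u, hu, ?_⟩
        rcases h0 with rfl | rfl | rfl
        · exact mono (Bd.zero1 b c) (Nat.zero_le _)
        · exact mono (Bd.zero1 a c).swap12 (Nat.zero_le _)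
        · exact mono (Bd.zero1 a b).swap12.swap23 (Nat.zero_le _)
      · rw [not_or, not_or] at h0
        obtain ⟨a, rfl⟩ := Nat.exists_eq_succ_of_ne_zero h0.1
        obtain ⟨b, rfl⟩ := Nat.exists_eq_succ_of_ne_zero h0.2.1
        obtain ⟨c, rfl⟩ := Nat.exists_eq_succ_of_ne_zero h0.2.2
        obtain ⟨u1, h1, b1⟩ := ih a (b + 1) (c + 1) (by omega)
        obtain ⟨u2, h2, b2⟩ := ih (a + 1) b (c + 1) (by omega)
        obtain ⟨u3, h3, b3⟩ := ih (a + 1) (b + 1) c (by omega)
        refine ⟨1 + u1 + u2 + u3, ?_, Bd.step b1 b2 b3⟩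
        have e1 : a + (b + 1) + (c + 1) = a + b + c + 2 := by ring
        have e2 : a + 1 + b + (c + 1) = a + b + c + 2 := by ring
        have e3 : a + 1 + (b + 1) + c = a + b + c + 2 := by ring
        have e4 : a.succ + b.succ + c.succ = a + b + c + 2 + 1 := by
          simp only [Nat.succ_eq_add_one]; ring
        rw [e1] at h1
        rw [e2] at h2
        rw [e3] at h3
        rw [e4, pow_succ]
        omega
  intro a b c h
  obtain ⟨u, hu, hb⟩ := key n a b c h
  refine ⟨?_, u, hu, hb⟩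
  intro γ ν _ _ χ i j k hij hik hjk hs A h1 h2 h3 h4
  have := hb γ ν χ i j k hij hik hjk hs A h1 h2 h3 h4
  omega

theorem exists_ramProp {γ : Type} [DecidableEq γ] {T : Finset γ} (hT : T.card = 3) (e : γ → ℕ) :
    {n : ℕ | RamProp T e n}.Nonempty := by
  obtain ⟨i, j, k, hij, hik, hjk, hT⟩ := card_eq_three.1 hT
  by_contra h
  have h1 : ¬ RamProp T e (3 ^ (e i + e j + e k) + 1) := fun h' => h ⟨_, h'⟩
  have := le_of_not_ramProp h1 hij hik hjk hT (exists_bd _ _ _ _ le_rfl).1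
  omega

theorem ramProp_ram {γ : Type} [DecidableEq γ] {T : Finset γ} (hT : T.card = 3) (e : γ → ℕ) :
    RamProp T e (ram T e) := Nat.sInf_mem (exists_ramProp hT e)

theorem lt_ram {γ : Type} [DecidableEq γ] {T : Finset γ} (hT : T.card = 3) {e : γ → ℕ} {n : ℕ} :
    n < ram T e ↔ ¬ RamProp T e n := by
  constructor
  · intro h h'
    exact absurd (Nat.sInf_le h') (by
      show ¬ ram T e ≤ n
      omega)
  · intro h
    by_contra h'
    exact h ((ramProp_ram hT e).mono (not_lt.1 h'))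

theorem ram_pos {γ : Type} [DecidableEq γ] {T : Finset γ} (hT : T.card = 3) (e : γ → ℕ) :
    1 ≤ ram T e := by
  rw [Nat.one_le_iff_ne_zero]
  intro h
  have := ramProp_ram hT e
  rw [h] at this
  obtain ⟨q, hq⟩ : T.Nonempty := card_pos.1 (by omega)
  obtain ⟨q, _, B, hB, _⟩ := this (fun i => i.elim0) (fun i => i.elim0) (fun i => i.elim0)
  have : B = ∅ := by
    ext x
    exact x.elim0
  rw [this] at hB
  simp at hB

/-- `ram T e - 1` is the largest size of a good colouring -/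
theorem le_ram_sub_one {γ : Type} [DecidableEq γ] {T : Finset γ} (hT : T.card = 3) {e : γ → ℕ}
    {n : ℕ} : n ≤ ram T e - 1 ↔ ¬ RamProp T e n := by
  rw [← lt_ram hT]
  have := ram_pos hT e
  omega

theorem ram_sub_one_le {γ : Type} [DecidableEq γ] {T : Finset γ} {e : γ → ℕ}
    {i j k : γ} (hij : i ≠ j) (hik : i ≠ k) (hjk : j ≠ k)
    (hT : T = {i, j, k}) {u : ℕ} (hB : Bd (e i) (e j) (e k) u) : ram T e - 1 ≤ u := by
  have hT3 : T.card = 3 := by rw [hT]; exact card_eq_three.2 ⟨i, j, k, hij, hik, hjk, rfl⟩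
  exact le_of_not_ramProp ((le_ram_sub_one hT3).1 le_rfl) hij hik hjk hT hB

theorem one_le_ram {γ : Type} [DecidableEq γ] {T : Finset γ} (hT : T.card = 3) {e : γ → ℕ}
    (he : ∀ q ∈ T, 1 ≤ e q) : 1 ≤ ram T e - 1 := by
  rw [le_ram_sub_one hT]
  intro h
  obtain ⟨q, hq⟩ : T.Nonempty := card_pos.1 (by omega)
  obtain ⟨q', hq', B, hB, _⟩ := h (fun _ _ => q) (fun _ _ => rfl) (fun _ _ _ => hq)
  have h1 := he q' hq'
  have h2 := card_le_univ B
  rw [Fintype.card_fin] at h2
  omega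

theorem two_le_ram {γ : Type} [DecidableEq γ] {T : Finset γ} (hT : T.card = 3) {e : γ → ℕ}
    (he : ∀ q ∈ T, 1 ≤ e q) {r : γ} (hr : r ∈ T) (hr2 : 2 ≤ e r) : 2 ≤ ram T e - 1 := by
  rw [le_ram_sub_one hT]
  intro h
  obtain ⟨q', hq', B, hB, hB2⟩ := h (fun _ _ => r) (fun _ _ => rfl) (fun _ _ _ => hr)
  have h1 := he q' hq'
  have h2 := card_le_univ B
  rw [Fintype.card_fin] at h2
  have h3 : 1 < B.card := by omega
  obtain ⟨a, ha, b, hb, hab⟩ := one_lt_card.1 h3
  have := hB2 a ha b hb hab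
  rw [← this] at hB
  omega

theorem ramProp_map {γ δ : Type} [DecidableEq γ] [DecidableEq δ] (f : γ ↪ δ) {T : Finset γ}
    (hT : T.card = 3) (e : δ → ℕ) (n : ℕ) : RamProp (T.map f) e n ↔ RamProp T (e ∘ f) n := by
  classical
  constructor
  · intro h χ hs hc
    obtain ⟨q', hq', B, hB, hB2⟩ := h (fun i j => f (χ i j)) (fun i j => by rw [hs])
      (fun i j hij => mem_map_of_mem f (hc i j hij))
    obtain ⟨q, hq, rfl⟩ := mem_map.1 hq'
    exact ⟨q, hq, B, hB, fun i hi j hj hij => f.injective (hB2 i hi j hj hij)⟩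
  · intro h χ hs hc
    obtain ⟨q0, hq0⟩ : T.Nonempty := card_pos.1 (by omega)
    let g : δ → γ := fun d => if hd : ∃ q ∈ T, f q = d then hd.choose else q0
    have hg : ∀ d ∈ T.map f, g d ∈ T ∧ f (g d) = d := by
      intro d hd
      obtain ⟨q, hq, hqd⟩ := mem_map.1 hd
      have hd' : ∃ q ∈ T, f q = d := ⟨q, hq, hqd⟩
      simp only [g, dif_pos hd']
      exact hd'.choose_spec
    obtain ⟨q, hq, B, hB, hB2⟩ := h (fun i j => g (χ i j)) (fun i j => by rw [hs])
      (fun i j hij => (hg _ (hc i j hij)).1)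
    refine ⟨f q, mem_map_of_mem f hq, B, hB, ?_⟩
    intro i hi j hj hij
    rw [← hB2 i hi j hj hij]
    exact (hg _ (hc i j hij)).2.symm

theorem ram_map {γ δ : Type} [DecidableEq γ] [DecidableEq δ] (f : γ ↪ δ) {T : Finset γ}
    (hT : T.card = 3) (e : δ → ℕ) : ram (T.map f) e = ram T (e ∘ f) := by
  have : {n : ℕ | RamProp (T.map f) e n} = {n : ℕ | RamProp T (e ∘ f) n} := by
    ext n
    exact ramProp_map f hT e n
  rw [ram, this, ram]

end Pool.Agent.T6.H79.SC
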