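import Pool.Agent.T6.H79.SC.A
import Pool.Agent.T6.H79.SC.R

set_option autoImplicit false

namespace Pool.Agent.T6.H79.SC

open Finset

/-- the structure of a core with `s + 3` symbols -/
theorem core_struct {s ℓ : ℕ} (hs : 2 ≤ s) {κ : Type} [Fintype κ] [DecidableEq κ]
    (hκ : Fintype.card κ = s + 3) (ρ : Fin ((s + 1) ^ 2 + ℓ) → κ → ℕ) (h : Core (2 * s + 1) ρ) :
    ∃ (first : Fin ((s + 1) ^ 2 + ℓ) → κ) (e : κ → ℕ),
      (∀ r a, a ≠ first r → ρ r (first r) < ρ r a) ∧
      (∀ b, (univ.filter fun r => first r = b).card = s - 1 + e b) ∧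
      ∑ b, e b = ℓ + 4 ∧
      (∀ a, ∀ B : Finset κ, a ∉ B → B.card = e a + 1 →
        ∃ r, first r ∈ B ∧ ∀ c, ρ r c < ρ r a → c ∈ B) := by
  classical
  obtain ⟨hinj, hcore⟩ := h
  have hne : (univ : Finset κ).Nonempty := by
    rw [← card_pos, card_univ]
    omega
  have hfirst : ∀ r, ∃ b, ∀ a, a ≠ b → ρ r b < ρ r a := by
    intro r
    obtain ⟨b, _, hb⟩ := exists_min_image univ (ρ r) hne
    exact ⟨b, fun a hab => lt_of_le_of_ne (hb a (mem_univ _)) (fun h => hab (hinj r h.symm))⟩
  choose first hf using hfirst
  -- the counting form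
  have hcount : ∀ a, ∀ B : Finset κ, a ∉ B →
      s - 1 + B.card ≤ (univ.filter fun r => ∀ c, ρ r c < ρ r a → c ∈ B).card := by
    intro a B ha
    have h1 : ((insert a B)ᶜ).card + (B.card + 1) = s + 3 := by
      rw [card_compl, card_insert_of_notMem ha, hκ]
      have : (insert a B).card ≤ s + 3 := by
        rw [← hκ]
        exact card_le_univ _
      rw [card_insert_of_notMem ha] at this
      omega
    have h2 := hcore a (insert a B)ᶜ (by simp) (by omega)
    have h3 : good ρ a (insert a B)ᶜ ⊆ univ.filter fun r => ∀ c, ρ r c < ρ r a → c ∈ B := by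
      intro r hr
      rw [mem_good] at hr
      rw [mem_filter]
      refine ⟨mem_univ _, fun c hc => ?_⟩
      by_contra hcB
      have hca : c ≠ a := by
        rintro rfl
        exact lt_irrefl _ hc
      have := hr c (by
        rw [mem_compl, mem_insert]
        rintro (h | h)
        · exact hca h
        · exact hcB h)
      omega
    have h4 := card_le_card h3
    omega
  have hfeq : ∀ a, (univ.filter fun r => ∀ c, ρ r c < ρ r a → c ∈ (∅ : Finset κ)) =
      univ.filter fun r => first r = a := by
    intro a
    ext r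
    simp only [mem_filter, mem_univ, true_and, notMem_empty, imp_false, not_lt]
    constructor
    · intro h
      by_contra hne
      have := hf r a (fun h => hne h.symm)
      have := h (first r)
      omega
    · rintro rfl c
      by_cases hc : c = first r
      · rw [hc]
      · exact (hf r c hc).le
  have hge : ∀ a, s - 1 ≤ (univ.filter fun r => first r = a).card := by
    intro a
    have := hcount a ∅ (notMem_empty _)
    rw [hfeq] at this
    simpa using this
  refine ⟨first, fun b => (univ.filter fun r => first r = b).card - (s - 1), hf, ?_, ?_, ?_⟩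
  · intro b
    have := hge b
    show _ = s - 1 + ((univ.filter fun r => first r = b).card - (s - 1))
    omega
  · have h1 : ∑ b : κ, (univ.filter fun r => first r = b).card = (s + 1) ^ 2 + ℓ := by
      have := card_eq_sum_card_fiberwise (s := (univ : Finset (Fin ((s + 1) ^ 2 + ℓ))))
        (t := (univ : Finset κ)) (f := first) (fun _ _ => by simp)
      rw [card_univ, Fintype.card_fin] at this
      exact this.symm
    have h2 : ∑ b : κ, ((univ.filter fun r => first r = b).card - (s - 1)) + (s + 3) * (s - 1) =
        ∑ b : κ, (univ.filter fun r => first r = b).card := by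
      rw [← hκ, ← card_univ, ← smul_eq_mul, ← sum_const, ← sum_add_distrib]
      refine sum_congr rfl fun b _ => ?_
      have := hge b
      omega
    rw [h1] at h2
    obtain ⟨s', rfl⟩ : ∃ s', s = s' + 1 := ⟨s - 1, by omega⟩
    simp only [Nat.add_sub_cancel] at h2 ⊢
    nlinarith
  · intro a B ha hB
    have h1 := hcount a B ha
    have h2 := hge a
    have h3 : (univ.filter fun r => first r = a).card <
        (univ.filter fun r => ∀ c, ρ r c < ρ r a → c ∈ B).card := by
      have : B.card = (univ.filter fun r => first r = a).card - (s - 1) + 1 := hB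
      omega
    obtain ⟨r, hr, hr2⟩ := exists_mem_notMem_of_card_lt_card h3
    rw [mem_filter] at hr hr2
    have hne : first r ≠ a := fun h => hr2 ⟨mem_univ _, h⟩
    exact ⟨r, hr.2 _ (hf r a (fun h => hne h.symm)), hr.2⟩

end Pool.Agent.T6.H79.SC
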