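import Pool.Agent.T6.H79.SC.B1

set_option autoImplicit false

namespace Pool.Agent.T6.H79.SC

open Finset

/-- the abstract data of a core with `s+3` symbols -/
structure Data (s ℓ : ℕ) (κ : Type) [Fintype κ] [DecidableEq κ] where
  ρ : Fin ((s + 1) ^ 2 + ℓ) → κ → ℕ
  first : Fin ((s + 1) ^ 2 + ℓ) → κ
  e : κ → ℕ
  inj : ∀ r, Function.Injective (ρ r)
  hf : ∀ r a, a ≠ first r → ρ r (first r) < ρ r a
  hcard : ∀ b, (univ.filter fun r => first r = b).card = s - 1 + e b
  hcov : ∀ a, ∀ B : Finset κ, a ∉ B → B.card = e a + 1 →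
        ∃ r, first r ∈ B ∧ ∀ c, ρ r c < ρ r a → c ∈ B

variable {s ℓ : ℕ} {κ : Type} [Fintype κ] [DecidableEq κ] (D : Data s ℓ κ)

namespace Data

/-- the symbols with positive excess -/
def P : Finset κ := univ.filter fun a => 0 < D.e a

/-- the symbols with excess zero -/
def Z : Finset κ := univ.filter fun a => D.e a = 0

theorem mem_P (a : κ) : a ∈ D.P ↔ 0 < D.e a := by simp [P]

theorem mem_Z (a : κ) : a ∈ D.Z ↔ D.e a = 0 := by simp [Z]

theorem card_PZ : D.P.card + D.Z.card = Fintype.card κ := by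
  have : D.Z = D.Pᶜ := by
    ext a
    rw [mem_Z, mem_compl, mem_P]
    omega
  rw [this, card_compl]
  have := card_le_univ D.P
  omega

/-- primary rows -/
theorem exists_primary (b a : κ) (ha : a ∈ D.Z) (hab : a ≠ b) :
    ∃ r, D.first r = b ∧ ∀ c, D.ρ r c < D.ρ r a → c = b := by
  rw [mem_Z] at ha
  obtain ⟨r, h1, h2⟩ := D.hcov a {b} (by simpa using hab) (by simp [ha])
  exact ⟨r, by simpa using h1, fun c hc => by simpa using h2 c hc⟩

open Classical in
noncomputable def π (b a : κ) : Fin ((s + 1) ^ 2 + ℓ) :=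
  if h : a ∈ D.Z ∧ a ≠ b then (D.exists_primary b a h.1 h.2).choose
  else if h : ∃ r, D.first r = b then h.choose else ⟨0, by positivity⟩

theorem π_first (b a : κ) (ha : a ∈ D.Z) (hab : a ≠ b) : D.first (D.π b a) = b := by
  rw [π, dif_pos ⟨ha, hab⟩]
  exact (D.exists_primary b a ha hab).choose_spec.1

theorem π_pred (b a : κ) (ha : a ∈ D.Z) (hab : a ≠ b) (c : κ)
    (hc : D.ρ (D.π b a) c < D.ρ (D.π b a) a) : c = b := by
  rw [π, dif_pos ⟨ha, hab⟩] at hc
  exact (D.exists_primary b a ha hab).choose_spec.2 c hc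

/-- in the primary row `π b a` every symbol other than `a`, `b` comes after `a` -/
theorem π_second (b a : κ) (ha : a ∈ D.Z) (hab : a ≠ b) (c : κ) (hca : c ≠ a) (hcb : c ≠ b) :
    D.ρ (D.π b a) a < D.ρ (D.π b a) c := by
  by_contra h
  rcases lt_or_eq_of_le (not_lt.1 h) with h | h
  · exact hcb (D.π_pred b a ha hab c h)
  · exact hca (D.inj _ h)

theorem π_inj (b : κ) : Set.InjOn (D.π b) (D.Z.erase b) := by
  intro a ha a' ha' h
  rw [coe_erase] at ha ha'
  by_contra hne
  have h1 := D.π_second b a ha.1 ha.2 a' (fun h => hne h.symm) ha'.2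
  have h2 := D.π_second b a' ha'.1 ha'.2 a hne ha.2
  rw [h] at h1
  omega

/-- the free rows of `b` -/
noncomputable def free (b : κ) : Finset (Fin ((s + 1) ^ 2 + ℓ)) :=
  (univ.filter fun r => D.first r = b) \ (D.Z.erase b).image (D.π b)

theorem card_free (b : κ) : (D.free b).card + (D.Z.erase b).card = s - 1 + D.e b := by
  rw [← D.hcard b, free, card_sdiff_of_subset]
  · rw [card_image_of_injOn (D.π_inj b)]
    have : (D.Z.erase b).card ≤ (univ.filter fun r => D.first r = b).card := by
      rw [← card_image_of_injOn (D.π_inj b)]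
      apply card_le_card
      intro r hr
      obtain ⟨a, ha, rfl⟩ := mem_image.1 hr
      rw [mem_erase] at ha
      simp [D.π_first b a ha.2 ha.1]
    omega
  · intro r hr
    obtain ⟨a, ha, rfl⟩ := mem_image.1 hr
    rw [mem_erase] at ha
    simp [D.π_first b a ha.2 ha.1]

theorem row_cases (r : Fin ((s + 1) ^ 2 + ℓ)) (b : κ) (h : D.first r = b) :
    r ∈ D.free b ∨ ∃ a ∈ D.Z, a ≠ b ∧ r = D.π b a := by
  by_cases hr : r ∈ (D.Z.erase b).image (D.π b)
  · right
    obtain ⟨a, ha, rfl⟩ := mem_image.1 hr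
    rw [mem_erase] at ha
    exact ⟨a, ha.2, ha.1, rfl⟩
  · left
    rw [free, mem_sdiff]
    exact ⟨by simp [h], hr⟩

theorem three_le (hκ : Fintype.card κ = s + 3) (hs : 2 ≤ s) : 3 ≤ D.P.card := by
  have h1 := D.card_PZ
  rcases D.Z.eq_empty_or_nonempty with h | ⟨b, hb⟩
  · rw [h, card_empty] at h1
    omega
  · have h2 := D.card_free b
    have h3 := card_erase_add_one hb
    rw [(D.mem_Z b).1 hb] at h2
    omega

/-- the first symbol of `P` other than the first symbol of the row -/
theorem exists_x (h3 : 3 ≤ D.P.card) (r : Fin ((s + 1) ^ 2 + ℓ)) :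
    ∃ y ∈ D.P, y ≠ D.first r ∧ ∀ q ∈ D.P, q ≠ D.first r → q ≠ y → D.ρ r y < D.ρ r q := by
  have hne : (D.P.erase (D.first r)).Nonempty := by
    rw [← card_pos]
    have := pred_card_le_card_erase (s := D.P) (a := D.first r)
    omega
  obtain ⟨y, hy, hy2⟩ := exists_min_image _ (D.ρ r) hne
  rw [mem_erase] at hy
  refine ⟨y, hy.2, hy.1, fun q hq hqf hqy => ?_⟩
  exact lt_of_le_of_ne (hy2 q (mem_erase.2 ⟨hqf, hq⟩)) (fun h => hqy (D.inj r h.symm))

end Data

/-- the second layer: the functions `x`, `T` -/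
structure Data2 (s ℓ : ℕ) (κ : Type) [Fintype κ] [DecidableEq κ] extends Data s ℓ κ where
  x : Fin ((s + 1) ^ 2 + ℓ) → κ
  T : κ → Finset κ
  x_mem : ∀ r, x r ∈ toData.P
  x_ne : ∀ r, x r ≠ first r
  x_lt : ∀ r, ∀ q ∈ toData.P, q ≠ first r → q ≠ x r → ρ r (x r) < ρ r q
  T_sub : ∀ b, T b ⊆ toData.P.erase b
  T_card : ∀ b, e b ≤ 1 → (T b).card = 3 - e b
  T_free : ∀ b, e b ≤ 1 → ∀ r ∈ toData.free b, x r ∉ T b

theorem exists_data2 (hκ : Fintype.card κ = s + 3) (hs : 2 ≤ s) :
    ∃ D2 : Data2 s ℓ κ, D2.toData = D := by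
  classical
  have h3 := D.three_le hκ hs
  choose x hx1 hx2 hx3 using D.exists_x h3
  have key : ∀ b, ∃ T : Finset κ, T ⊆ D.P.erase b ∧ (D.e b ≤ 1 → T.card = 3 - D.e b ∧
      ∀ r ∈ D.free b, x r ∉ T) := by
    intro b
    by_cases hb : D.e b ≤ 1
    · -- the number of free rows
      have h4 := D.card_free b
      have h5 := D.card_PZ
      have hfree : (D.free b).card = D.P.card - 3 := by
        by_cases hbZ : b ∈ D.Z
        · have h6 := card_erase_add_one hbZ
          rw [(D.mem_Z b).1 hbZ] at h4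
          omega
        · have h6 : D.Z.erase b = D.Z := erase_eq_of_notMem hbZ
          have h7 : D.e b = 1 := by
            rw [D.mem_Z] at hbZ
            omega
          rw [h6, h7] at h4
          omega
      have hsub : (D.free b).image x ⊆ D.P.erase b := by
        intro y hy
        obtain ⟨r, hr, rfl⟩ := mem_image.1 hy
        have hrb : D.first r = b := by
          rw [Data.free, mem_sdiff, mem_filter] at hr
          exact hr.1.2
        rw [mem_erase]
        exact ⟨hrb ▸ hx2 r, hx1 r⟩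
      have hPb : (D.P.erase b).card = D.P.card - D.e b := by
        by_cases hbP : b ∈ D.P
        · have h6 := card_erase_add_one hbP
          rw [D.mem_P] at hbP
          omega
        · rw [erase_eq_of_notMem hbP]
          rw [D.mem_P] at hbP
          omega
      obtain ⟨g, hg1, hg2, hg3⟩ := exists_subsuperset_card_eq hsub
        (card_image_le.trans hfree.le) (by omega)
      refine ⟨D.P.erase b \ g, sdiff_subset, fun _ => ⟨?_, ?_⟩⟩
      · rw [card_sdiff_of_subset hg2, hPb, hg3]
        omega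
      · intro r hr h
        rw [mem_sdiff] at h
        exact h.2 (hg1 (mem_image_of_mem x hr))
    · exact ⟨∅, empty_subset _, fun h => absurd h hb⟩
  choose T hT1 hT2 using key
  exact ⟨{ D with
    x := x
    T := T
    x_mem := hx1
    x_ne := hx2
    x_lt := hx3
    T_sub := hT1
    T_card := fun b hb => (hT2 b hb).1
    T_free := fun b hb => (hT2 b hb).2 }, rfl⟩

variable (E : Data2 s ℓ κ)

namespace Data2

theorem T_subP (b : κ) : E.T b ⊆ E.P := (E.T_sub b).trans (erase_subset _ _)

/-- a fixed choice of an element of a finset -/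
noncomputable def pick (F : Finset κ) (b : κ) : κ := by
  classical
  exact if h : F.Nonempty then h.choose else b

theorem pick_mem {F : Finset κ} (h : F.Nonempty) (b : κ) : pick F b ∈ F := by
  rw [pick, dif_pos h]
  exact h.choose_spec

/-- the set of colours allowed for the pair `b, c` -/
noncomputable def miss (b c : κ) : Finset κ :=
  (E.T b ∩ E.T c) \ {E.x (E.π b c), E.x (E.π c b)}

theorem miss_comm (b c : κ) : E.miss b c = E.miss c b := by
  rw [miss, miss, inter_comm, pair_comm]

theorem miss_nonempty (b c : κ) (hb : b ∈ E.Z) (h : E.T b = E.T c) : (E.miss b c).Nonempty := by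
  rw [← card_pos, miss, ← h, inter_self]
  have h1 : (E.T b).card ≤ (E.T b \ {E.x (E.π b c), E.x (E.π c b)}).card +
      ({E.x (E.π b c), E.x (E.π c b)} : Finset κ).card := card_le_card_sdiff_add_card
  have h2 := card_le_two (a := E.x (E.π b c)) (b := E.x (E.π c b))
  have h3 := E.T_card b (by rw [(E.mem_Z b).1 hb]; omega)
  rw [(E.mem_Z b).1 hb] at h3
  omega

/-- the key covering fact -/
theorem key (q : κ) (hq : q ∈ E.P) (B : Finset κ) (hB : B ⊆ E.Z) (hT : ∀ b ∈ B, q ∈ E.T b)
    (hχ : ∀ b ∈ B, ∀ c ∈ B, b ≠ c → q ∈ E.miss b c) : B.card ≤ E.e q := by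
  by_contra hlt
  rw [not_le] at hlt
  obtain ⟨B', hB', hc⟩ := exists_subset_card_eq (show E.e q + 1 ≤ B.card by omega)
  have hPZ : ∀ a, a ∈ E.P → a ∉ E.Z := by
    intro a ha ha'
    rw [E.mem_P] at ha
    rw [E.mem_Z] at ha'
    omega
  have hqB : q ∉ B' := fun h => hPZ q hq (hB (hB' h))
  obtain ⟨r, hr1, hr2⟩ := E.hcov q B' hqB hc
  have hqf : q ≠ E.first r := fun h => hqB (h ▸ hr1)
  have hx : E.x r = q := by
    by_contra hne
    have := E.x_lt r q hq hqf (fun h => hne h.symm)
    exact hPZ _ (E.x_mem r) (hB (hB' (hr2 _ this)))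
  rcases E.row_cases r (E.first r) rfl with h | ⟨c, hcZ, hcne, hrc⟩
  · have h0 : E.e (E.first r) ≤ 1 := by
      rw [(E.mem_Z _).1 (hB (hB' hr1))]
      omega
    exact E.T_free _ h0 r h (hx ▸ hT _ (hB' hr1))
  · have hcq : c ≠ q := fun h => hPZ q hq (h ▸ hcZ)
    have h1 := E.π_second (E.first r) c hcZ hcne q hcq.symm hqf
    rw [← hrc] at h1
    have h2 := hχ (E.first r) (hB' hr1) c (hB' (hr2 c h1)) hcne.symm
    rw [miss, mem_sdiff] at h2
    apply h2.2
    rw [← hrc, hx]
    exact mem_insert_self _ _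

theorem pick_congr {F : Finset κ} (h : F.Nonempty) (b b' : κ) : pick F b = pick F b' := by
  rw [pick, pick, dif_pos h, dif_pos h]

theorem fiber_le (T : Finset κ) (hT : T.card = 3) :
    (E.Z.filter fun b => E.T b = T).card ≤ ram T E.e - 1 := by
  classical
  rw [le_ram_sub_one hT, not_ramProp_iff]
  set F := E.Z.filter fun b => E.T b = T with hF
  let g : Fin F.card ≃ F := F.equivFin.symm
  have hg : ∀ i, (g i).1 ∈ E.Z ∧ E.T (g i).1 = T := by
    intro i
    exact mem_filter.1 (g i).2
  have hne : ∀ i j, (E.miss (g i).1 (g j).1).Nonempty := fun i j =>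
    E.miss_nonempty _ _ (hg i).1 ((hg i).2.trans (hg j).2.symm)
  refine ⟨fun i j => pick (E.miss (g i).1 (g j).1) (g i).1, ?_, ?_, ?_⟩
  · intro i j
    show pick (E.miss (g i).1 (g j).1) (g i).1 = pick (E.miss (g j).1 (g i).1) (g j).1
    rw [pick_congr (hne i j) (g i).1 (g j).1, E.miss_comm]
  · intro i j hij
    have h1 := pick_mem (hne i j) (g i).1
    have h2 : E.miss (g i).1 (g j).1 ⊆ T := by
      intro y hy
      rw [miss, mem_sdiff, mem_inter, (hg i).2] at hy
      exact hy.1.1
    exact h2 h1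
  · intro q hq B hB
    rcases B.eq_empty_or_nonempty with h | ⟨i0, hi0⟩
    · rw [h]; simp
    let f : Fin F.card ↪ κ := g.toEmbedding.trans (Function.Embedding.subtype _)
    have hf : ∀ i, f i = (g i).1 := fun i => rfl
    have h1 := E.key q (E.T_subP (g i0).1 ((hg i0).2 ▸ hq)) (B.map f) (by
      intro y hy
      obtain ⟨i, _, rfl⟩ := mem_map.1 hy
      exact (hg i).1) (by
      intro y hy
      obtain ⟨i, _, rfl⟩ := mem_map.1 hy
      rw [hf, (hg i).2]
      exact hq) (by
      intro y hy z hz hyz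
      obtain ⟨i, hi, rfl⟩ := mem_map.1 hy
      obtain ⟨j, hj, rfl⟩ := mem_map.1 hz
      have hij : i ≠ j := fun h => hyz (by rw [h])
      have := hB i hi j hj hij
      rw [← this, hf, hf]
      exact pick_mem (hne i j) _)
    rwa [card_map] at h1

theorem card_Z_le : E.Z.card ≤ ∑ T ∈ E.P.powersetCard 3, (ram T E.e - 1) := by
  classical
  rw [card_eq_sum_card_fiberwise (f := E.T) (t := E.P.powersetCard 3)]
  · refine sum_le_sum fun T hT => ?_
    exact E.fiber_le T (mem_powersetCard.1 hT).2
  · intro b hb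
    have hb' : b ∈ E.Z := hb
    rw [mem_coe, mem_powersetCard]
    refine ⟨E.T_subP b, ?_⟩
    have := E.T_card b (by rw [(E.mem_Z b).1 hb']; omega)
    rw [(E.mem_Z b).1 hb'] at this
    exact this

/-- all excesses are one: `|Z| + |P| ≤ C(|P|, 3)` -/
theorem ones (hones : ∀ a ∈ E.P, E.e a = 1) : E.Z.card + E.P.card ≤ E.P.card.choose 3 := by
  classical
  have hPZ : ∀ a, a ∈ E.P → a ∉ E.Z := by
    intro a ha ha'
    rw [E.mem_P] at ha
    rw [E.mem_Z] at ha'
    omega
  have hTP : ∀ p ∈ E.P, (E.T p).card = 2 := by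
    intro p hp
    have := E.T_card p (by rw [hones p hp])
    rw [hones p hp] at this
    exact this
  have hTZ : ∀ b ∈ E.Z, (E.T b).card = 3 := by
    intro b hb
    have := E.T_card b (by rw [(E.mem_Z b).1 hb]; omega)
    rw [(E.mem_Z b).1 hb] at this
    exact this
  have hpT : ∀ p, p ∉ E.T p := fun p h => by
    have := E.T_sub p h
    simp at this
  -- the main alternative
  have main : ∀ q ∈ E.P, ∀ u v : κ, u ≠ v → q ≠ u → q ≠ v → ∃ r, (E.first r = u ∨ E.first r = v) ∧
      (E.x r = q ∨ E.x r = u ∨ E.x r = v) ∧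
      ((r ∈ E.free (E.first r)) ∨ ∃ c ∈ E.Z, c ≠ E.first r ∧ r = E.π (E.first r) c ∧
        (c = u ∨ c = v)) := by
    intro q hq u v huv hqu hqv
    have hqB : q ∉ ({u, v} : Finset κ) := by simp [hqu, hqv]
    obtain ⟨r, hr1, hr2⟩ := E.hcov q {u, v} hqB (by rw [card_pair huv, hones q hq])
    have hqf : q ≠ E.first r := fun h => hqB (h ▸ hr1)
    refine ⟨r, by simpa using hr1, ?_, ?_⟩
    · by_cases hx : E.x r = q
      · exact Or.inl hx
      · right
        have := E.x_lt r q hq hqf (fun h => hx h.symm)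
        simpa using hr2 _ this
    · rcases E.row_cases r (E.first r) rfl with h | ⟨c, hcZ, hcne, hrc⟩
      · exact Or.inl h
      · right
        refine ⟨c, hcZ, hcne, hrc, ?_⟩
        have hcq : q ≠ c := fun h => hPZ q hq (h ▸ hcZ)
        have h1 := E.π_second (E.first r) c hcZ hcne q hcq hqf
        rw [← hrc] at h1
        simpa using hr2 c h1
  have claimA : ∀ b ∈ E.Z, ∀ p ∈ E.P, E.T b ≠ insert p (E.T p) := by
    intro b hb p hp heq
    have hbp : p ≠ b := fun h => hPZ p hp (h ▸ hb)
    have hsub : E.T p ⊆ {E.x (E.π p b)} := by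
      intro q hq
      rw [mem_singleton]
      have hq' := mem_erase.1 (E.T_sub p hq)
      obtain ⟨r, h1, h2, h3⟩ := main q hq'.2 p b hbp hq'.1 (fun h => hPZ q hq'.2 (h ▸ hb))
      have hxb : E.x r ≠ b := fun h => hPZ _ (E.x_mem r) (h ▸ hb)
      rcases h1 with h1 | h1
      · have hxq : E.x r = q := by
          rcases h2 with h2 | h2 | h2
          · exact h2
          · exact absurd (h2.trans h1.symm) (E.x_ne r)
          · exact absurd h2 hxb
        rcases h3 with h3 | ⟨c, hcZ, hcne, hrc, hc⟩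
        · exfalso
          rw [h1] at h3
          exact E.T_free p (by rw [hones p hp]) r h3 (hxq ▸ hq)
        · rcases hc with hc | hc
          · exact absurd (hc.trans h1.symm) hcne
          · rw [← hxq, hrc, h1, hc]
      · exfalso
        rcases h3 with h3 | ⟨c, hcZ, hcne, hrc, hc⟩
        · rw [h1] at h3
          apply E.T_free b (by rw [(E.mem_Z b).1 hb]; omega) r h3
          rw [heq]
          rcases h2 with h2 | h2 | h2
          · rw [h2]; exact mem_insert_of_mem hq
          · rw [h2]; exact mem_insert_self _ _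
          · exact absurd h2 hxb
        · rcases hc with hc | hc
          · exact hPZ p hp (hc ▸ hcZ)
          · exact hcne (hc.trans h1.symm)
    have := card_le_card hsub
    rw [hTP p hp, card_singleton] at this
    omega
  have claimB : ∀ p ∈ E.P, ∀ p' ∈ E.P, insert p (E.T p) = insert p' (E.T p') → p = p' := by
    intro p hp p' hp' heq
    by_contra hne
    have h1 : p' ∈ E.T p := by
      have : p' ∈ insert p (E.T p) := heq ▸ mem_insert_self _ _
      rcases mem_insert.1 this with h | h
      · exact absurd h.symm hne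
      · exact h
    have h2 : p ∈ E.T p' := by
      have : p ∈ insert p' (E.T p') := heq ▸ mem_insert_self _ _
      rcases mem_insert.1 this with h | h
      · exact absurd h hne
      · exact h
    have h3 : ((E.T p).erase p').Nonempty := by
      rw [← card_pos, card_erase_of_mem h1, hTP p hp]
      omega
    obtain ⟨q, hq⟩ := h3
    rw [mem_erase] at hq
    have hq2 : q ∈ E.T p' := by
      have : q ∈ insert p' (E.T p') := heq ▸ mem_insert_of_mem hq.2
      rcases mem_insert.1 this with h | h
      · exact absurd h hq.1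
      · exact h
    have hqp : q ≠ p := fun h => hpT p (h ▸ hq.2)
    obtain ⟨r, g1, g2, g3⟩ := main q (E.T_subP p hq.2) p p' hne hqp hq.1
    have hc3 : r ∈ E.free (E.first r) := by
      rcases g3 with g3 | ⟨c, hcZ, _, _, hc⟩
      · exact g3
      · exfalso
        rcases hc with hc | hc
        · exact hPZ p hp (hc ▸ hcZ)
        · exact hPZ p' hp' (hc ▸ hcZ)
    rcases g1 with g1 | g1
    · rw [g1] at hc3
      apply E.T_free p (by rw [hones p hp]) r hc3
      rcases g2 with g2 | g2 | g2
      · rw [g2]; exact hq.2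
      · exact absurd (g2.trans g1.symm) (E.x_ne r)
      · rw [g2]; exact h1
    · rw [g1] at hc3
      apply E.T_free p' (by rw [hones p' hp']) r hc3
      rcases g2 with g2 | g2 | g2
      · rw [g2]; exact hq2
      · rw [g2]; exact h2
      · exact absurd (g2.trans g1.symm) (E.x_ne r)
  have injT : Set.InjOn E.T E.Z := by
    intro b hb c hc hbc
    have hb' : b ∈ E.Z := hb
    have hc' : c ∈ E.Z := hc
    by_contra hne
    obtain ⟨q, hq⟩ := E.miss_nonempty b c hb' hbc
    have hqT : q ∈ E.T b ∧ q ∈ E.T c := by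
      rw [miss, mem_sdiff, mem_inter] at hq
      exact hq.1
    have hqP := E.T_subP b hqT.1
    have := E.key q hqP {b, c} (by
      intro y hy
      rcases mem_insert.1 hy with rfl | hy
      · exact hb'
      · rw [mem_singleton] at hy; subst hy; exact hc') (by
      intro y hy
      rcases mem_insert.1 hy with rfl | hy
      · exact hqT.1
      · rw [mem_singleton] at hy; subst hy; exact hqT.2) (by
      intro y hy z hz hyz
      rcases mem_insert.1 hy with h | hy
      · rcases mem_insert.1 hz with h' | hz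
        · exact absurd (h.trans h'.symm) hyz
        · rw [mem_singleton] at hz
          rw [h, hz]; exact hq
      · rw [mem_singleton] at hy
        rcases mem_insert.1 hz with h' | hz
        · rw [hy, h', E.miss_comm]; exact hq
        · rw [mem_singleton] at hz
          exact absurd (hy.trans hz.symm) hyz)
    rw [card_pair hne, hones q hqP] at this
    omega
  have hdisj : Disjoint (E.Z.image E.T) (E.P.image fun p => insert p (E.T p)) := by
    rw [disjoint_left]
    intro T h1 h2
    obtain ⟨b, hb, rfl⟩ := mem_image.1 h1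
    obtain ⟨p, hp, h⟩ := mem_image.1 h2
    exact claimA b hb p hp h.symm
  have hsub : E.Z.image E.T ∪ (E.P.image fun p => insert p (E.T p)) ⊆ E.P.powersetCard 3 := by
    apply union_subset
    · intro T hT
      obtain ⟨b, hb, rfl⟩ := mem_image.1 hT
      exact mem_powersetCard.2 ⟨E.T_subP b, hTZ b hb⟩
    · intro T hT
      obtain ⟨p, hp, rfl⟩ := mem_image.1 hT
      refine mem_powersetCard.2 ⟨insert_subset hp (E.T_subP p), ?_⟩
      rw [card_insert_of_notMem (hpT p), hTP p hp]
  have h1 := card_le_card hsub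
  rw [card_union_of_disjoint hdisj, card_image_of_injOn injT, card_powersetCard,
    card_image_of_injOn] at h1
  · exact h1
  · intro p hp p' hp' h
    exact claimB p hp p' hp' h

end Data2

end Pool.Agent.T6.H79.SC
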