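import Pool.Agent.T6.H79.SC.B2

set_option autoImplicit false

namespace Pool.Agent.T6.H79.SC

open Finset

theorem sum_transfer {κ : Type} [DecidableEq κ] (P : Finset κ) (e : κ → ℕ) (f : Fin P.card ↪ κ)
    (hf : (univ : Finset (Fin P.card)).map f = P) :
    ∑ T ∈ P.powersetCard 3, (ram T e - 1) =
      ∑ T ∈ (univ : Finset (Fin P.card)).powersetCard 3, (ram T (e ∘ f) - 1) := by
  classical
  have h1 : P.powersetCard 3 = ((univ : Finset (Fin P.card)).powersetCard 3).map
      (mapEmbedding f).toEmbedding := by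
    conv_lhs => rw [← hf]
    exact powersetCard_map f 3 univ
  rw [h1, sum_map]
  refine sum_congr rfl fun T hT => ?_
  have hT3 := (mem_powersetCard.1 hT).2
  show ram (T.map f) e - 1 = _
  rw [ram_map f hT3]

/-- the vector `(2,1,…,1)` -/
def e2 (n : ℕ) : Fin (n + 1) → ℕ := fun i => if i = 0 then 2 else 1

theorem e2_pos (n : ℕ) (i : Fin (n + 1)) : 1 ≤ e2 n i := by
  rw [e2]; split_ifs <;> omega

theorem e2_sum (n : ℕ) : ∑ i, e2 n i = n + 2 := by
  rw [Fin.sum_univ_succ]
  simp only [e2, if_true]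
  have : ∀ i : Fin n, (if i.succ = 0 then 2 else 1) = 1 := by
    intro i
    rw [if_neg (Fin.succ_ne_zero i)]
  rw [sum_congr rfl (fun i _ => this i)]
  simp
  omega

theorem count_zero (n : ℕ) : ((univ : Finset (Fin (n + 1))).powersetCard 3).card +
    n.choose 2 ≤ ∑ T ∈ (univ : Finset (Fin (n + 1))).powersetCard 3, (if 0 ∈ T then 2 else 1) := by
  classical
  have h1 : ∑ T ∈ (univ : Finset (Fin (n + 1))).powersetCard 3, (if 0 ∈ T then 2 else 1) =
      ((univ : Finset (Fin (n + 1))).powersetCard 3).card +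
      (((univ : Finset (Fin (n + 1))).powersetCard 3).filter fun T => 0 ∈ T).card := by
    rw [card_filter, card_eq_sum_ones, ← sum_add_distrib]
    refine sum_congr rfl fun T _ => ?_
    split_ifs <;> rfl
  rw [h1]
  have h2 : n.choose 2 ≤
      (((univ : Finset (Fin (n + 1))).powersetCard 3).filter fun T => 0 ∈ T).card := by
    have h3 : (((univ : Finset (Fin (n + 1))).erase 0).powersetCard 2).card = n.choose 2 := by
      rw [card_powersetCard, card_erase_of_mem (mem_univ _)]
      simp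
    rw [← h3]
    apply card_le_card_of_injOn (fun T => insert 0 T)
    · intro T hT
      have hT' := mem_powersetCard.1 (mem_coe.1 hT)
      have h0 : (0 : Fin (n + 1)) ∉ T := fun h => by
        have := hT'.1 h
        simp at this
      rw [mem_coe, mem_filter, mem_powersetCard]
      refine ⟨⟨subset_univ _, ?_⟩, mem_insert_self _ _⟩
      rw [card_insert_of_notMem h0, hT'.2]
    · intro T hT T' hT' h
      have h0 : (0 : Fin (n + 1)) ∉ T := fun h => by
        have := (mem_powersetCard.1 (mem_coe.1 hT)).1 h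
        simp at this
      have h0' : (0 : Fin (n + 1)) ∉ T' := fun h => by
        have := (mem_powersetCard.1 (mem_coe.1 hT')).1 h
        simp at this
      have := congrArg (fun X : Finset (Fin (n + 1)) => X.erase 0) h
      simpa [erase_insert h0, erase_insert h0'] using this
  omega

theorem val_e2_ge (n : ℕ) : (n - 2) + ((n + 1).choose 3 + n.choose 2) ≤ val (n + 1) (e2 n) := by
  rw [val]
  have h1 := count_zero n
  rw [card_powersetCard, card_univ, Fintype.card_fin] at h1
  have h2 : ∑ T ∈ (univ : Finset (Fin (n + 1))).powersetCard 3, (if 0 ∈ T then 2 else 1) ≤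
      ∑ T ∈ (univ : Finset (Fin (n + 1))).powersetCard 3, (ram T (e2 n) - 1) := by
    refine sum_le_sum fun T hT => ?_
    have hT3 := (mem_powersetCard.1 hT).2
    split_ifs with h0
    · exact two_le_ram hT3 (fun q _ => e2_pos n q) h0 (by simp [e2])
    · exact one_le_ram hT3 (fun q _ => e2_pos n q)
  have h3 : n + 1 - 3 = n - 2 := by omega
  rw [h3]
  omega

theorem upper {s ℓ : ℕ} (hs : 2 ≤ s) (h : HasCore s ℓ (s + 3)) : ∃ x ∈ Cand ℓ, s ≤ x := by
  classical
  obtain ⟨κ, _, ρ, hκ, hρ⟩ := h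
  obtain ⟨first, e, h1, h2, h3, h4⟩ := core_struct hs hκ ρ hρ
  let D : Data s ℓ κ := ⟨ρ, first, e, hρ.1, h1, h2, h4⟩
  obtain ⟨E, hE⟩ := exists_data2 D hκ hs
  have hEe : E.e = e := by
    show E.toData.e = e
    rw [hE]
  have h3P : 3 ≤ E.P.card := E.toData.three_le hκ hs
  have hPZ := E.toData.card_PZ
  rw [hκ] at hPZ
  have hsumP : ∑ a ∈ E.P, E.e a = ℓ + 4 := by
    rw [← h3, ← hEe]
    apply sum_subset (subset_univ _)
    intro a _ ha
    rw [E.toData.mem_P] at ha
    omega
  have hones_le : E.P.card ≤ ∑ a ∈ E.P, E.e a := by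
    rw [card_eq_sum_ones]
    exact sum_le_sum fun a ha => (E.toData.mem_P a).1 ha
  by_cases hm : E.P.card ≤ ℓ + 3
  · let g : Fin E.P.card ≃ E.P := E.P.equivFin.symm
    let f : Fin E.P.card ↪ κ := g.toEmbedding.trans (Function.Embedding.subtype _)
    have hf : (univ : Finset (Fin E.P.card)).map f = E.P := by
      ext a
      simp only [mem_map, mem_univ, true_and]
      constructor
      · rintro ⟨i, rfl⟩
        exact (g i).2
      · intro ha
        refine ⟨g.symm ⟨a, ha⟩, ?_⟩
        show (g (g.symm ⟨a, ha⟩)).1 = a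
        simp
    refine ⟨val E.P.card (E.e ∘ f), ⟨E.P.card, h3P, hm, E.e ∘ f, ?_, ?_, rfl⟩, ?_⟩
    · intro i
      have : f i ∈ E.P := (g i).2
      exact (E.toData.mem_P _).1 this
    · rw [← hsumP]
      have h7 : ∑ a ∈ (univ : Finset (Fin E.P.card)).map f, E.e a = ∑ i, (E.e ∘ f) i :=
        sum_map _ _ _
      rw [← h7, hf]
    · rw [val, ← sum_transfer E.P E.e f hf]
      have := E.card_Z_le
      omega
  · have hones : ∀ a ∈ E.P, E.e a = 1 := by
      by_contra hcon
      simp only [not_forall] at hcon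
      obtain ⟨a, ha, hne⟩ := hcon
      have hlt : ∑ a ∈ E.P, 1 < ∑ a ∈ E.P, E.e a := by
        apply sum_lt_sum
        · intro i hi
          exact (E.toData.mem_P i).1 hi
        · refine ⟨a, ha, ?_⟩
          have := (E.toData.mem_P a).1 ha
          omega
      rw [← card_eq_sum_ones] at hlt
      omega
    have h5 := E.ones hones
    have hmeq : E.P.card = ℓ + 4 := by omega
    refine ⟨val (ℓ + 2 + 1) (e2 (ℓ + 2)), ⟨ℓ + 2 + 1, by omega, by omega, e2 (ℓ + 2),
      e2_pos _, by rw [e2_sum], rfl⟩, ?_⟩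
    have h6 := val_e2_ge (ℓ + 2)
    rw [hmeq] at h5
    have e1 : (ℓ + 4).choose 3 = (ℓ + 2 + 1).choose 2 + (ℓ + 2 + 1).choose 3 :=
      Nat.choose_succ_succ' (ℓ + 3) 2
    have e2' : (ℓ + 2 + 1).choose 2 = (ℓ + 2).choose 1 + (ℓ + 2).choose 2 :=
      Nat.choose_succ_succ' (ℓ + 2) 1
    rw [Nat.choose_one_right] at e2'
    omega

end Pool.Agent.T6.H79.SC
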