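import Pool.Agent.T6.H79.SC.A

set_option autoImplicit false

namespace Pool.Agent.T6.H79.SC

open Finset

theorem core_of_cover {ι κ : Type*} [Fintype ι] [Fintype κ] [DecidableEq κ] {t n0 : ℕ}
    (ρ : ι → κ → ℕ) (first : ι → κ) (e : κ → ℕ) (hinj : ∀ r, Function.Injective (ρ r))
    (hf : ∀ r a, ρ r (first r) ≤ ρ r a)
    (h1 : ∀ b, n0 + e b ≤ (univ.filter fun r => first r = b).card)
    (h2 : ∀ a, ∀ B : Finset κ, a ∉ B → B.card = e a + 1 →
      ∃ r, first r ∈ B ∧ ∀ c, ρ r c < ρ r a → c ∈ B)
    (ht : t + 1 ≤ n0 + Fintype.card κ) : Core t ρ := by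
  classical
  refine ⟨hinj, ?_⟩
  intro a S haS _
  -- the removal argument
  have key : ∀ n, ∀ B : Finset κ, B.card = n → a ∉ B →
      B.card ≤ e a + (univ.filter fun r => first r ∈ B ∧ ∀ c, ρ r c < ρ r a → c ∈ B).card := by
    intro n
    induction n with
    | zero =>
      intro B hB _
      omega
    | succ n ih =>
      intro B hB ha
      by_cases hle : B.card ≤ e a
      · omega
      · obtain ⟨B0, hB0, hc0⟩ := exists_subset_card_eq (show e a + 1 ≤ B.card by omega)
        obtain ⟨r0, hr0, hr1⟩ := h2 a B0 (fun h => ha (hB0 h)) hc0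
        have hwB : first r0 ∈ B := hB0 hr0
        have h3 := ih (B.erase (first r0)) (by rw [card_erase_of_mem hwB]; omega)
          (fun h => ha (mem_of_mem_erase h))
        have h4 : insert r0 (univ.filter fun r => first r ∈ B.erase (first r0) ∧
            ∀ c, ρ r c < ρ r a → c ∈ B.erase (first r0)) ⊆
            univ.filter fun r => first r ∈ B ∧ ∀ c, ρ r c < ρ r a → c ∈ B := by
          intro r hr
          rw [mem_filter]
          rcases mem_insert.1 hr with rfl | hr
          · exact ⟨mem_univ _, hwB, fun c hc => hB0 (hr1 c hc)⟩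
          · rw [mem_filter] at hr
            exact ⟨mem_univ _, mem_of_mem_erase hr.2.1, fun c hc => mem_of_mem_erase (hr.2.2 c hc)⟩
        have h5 : r0 ∉ univ.filter fun r => first r ∈ B.erase (first r0) ∧
            ∀ c, ρ r c < ρ r a → c ∈ B.erase (first r0) := by
          rw [mem_filter]
          rintro ⟨_, h, _⟩
          exact (notMem_erase _ _) h
        have h6 := card_le_card h4
        rw [card_insert_of_notMem h5] at h6
        have h7 := card_erase_add_one hwB
        omega
  set B : Finset κ := (insert a S)ᶜ with hB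
  have haB : a ∉ B := by simp [hB]
  have h3 := key B.card B rfl haB
  have hcB : B.card + (S.card + 1) = Fintype.card κ := by
    rw [hB, card_compl, card_insert_of_notMem haS]
    have := card_le_univ (insert a S)
    rw [card_insert_of_notMem haS] at this
    omega
  have h4 := h1 a
  have hdisj : Disjoint (univ.filter fun r => first r = a)
      (univ.filter fun r => first r ∈ B ∧ ∀ c, ρ r c < ρ r a → c ∈ B) := by
    rw [disjoint_left]
    intro r h5 h6
    rw [mem_filter] at h5 h6
    exact haB (h5.2 ▸ h6.2.1)
  have hsub : (univ.filter fun r => first r = a) ∪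
      (univ.filter fun r => first r ∈ B ∧ ∀ c, ρ r c < ρ r a → c ∈ B) ⊆ good ρ a S := by
    intro r hr
    rw [mem_good]
    intro b hb
    have hba : b ≠ a := fun h => haS (h ▸ hb)
    have hne : ρ r a ≠ ρ r b := fun h => hba (hinj r h).symm
    rcases mem_union.1 hr with h | h
    · rw [mem_filter] at h
      have := hf r b
      rw [h.2] at this
      omega
    · rw [mem_filter] at h
      by_contra hlt
      have := h.2.2 b (by omega)
      rw [hB, mem_compl, mem_insert] at this
      exact this (Or.inr hb)
  have h5 := card_le_card hsub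
  rw [card_union_of_disjoint hdisj] at h5
  omega

/-- the rank function of a row starting with `b, u, x, y` -/
def rk {κ : Type*} [DecidableEq κ] (idx : κ → ℕ) (b u x y : κ) : κ → ℕ := fun w =>
  if w = b then 0 else if w = u then 1 else if w = x then 2 else if w = y then 3 else 4 + idx w

section rk

variable {κ : Type*} [DecidableEq κ] {idx : κ → ℕ}

theorem rk_inj (hidx : Function.Injective idx) (b u x y : κ) :
    Function.Injective (rk idx b u x y) := by
  intro w w' h
  simp only [rk] at h
  split_ifs at h with h1 h2 h3 h4 h5 h6 h7 h8 h9 h10 h11 h12 h13 h14 h15 h16 h17 h18 h19 h20 h21 h22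
    h23 h24 h25 h26 h27 h28 h29 h30 h31 h32
  all_goals first
    | omega
    | exact hidx (by omega)
    | simp_all

theorem rk_first (b u x y w : κ) : rk idx b u x y b ≤ rk idx b u x y w := by
  simp [rk]

theorem rk_lt_one {b u x y w : κ} (h : rk idx b u x y w < 1) : w = b := by
  simp only [rk] at h
  split_ifs at h <;> first | assumption | omega

theorem rk_lt_two {b u x y w : κ} (h : rk idx b u x y w < 2) : w = b ∨ w = u := by
  simp only [rk] at h
  split_ifs at h <;> first | (left; assumption) | (right; assumption) | omega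

theorem rk_lt_three {b u x y w : κ} (h : rk idx b u x y w < 3) : w = b ∨ w = u ∨ w = x := by
  simp only [rk] at h
  split_ifs at h <;>
    first | (left; assumption) | (right; left; assumption) | (right; right; assumption) | omega

theorem rk_u (b u x y : κ) : rk idx b u x y u ≤ 1 := by
  simp only [rk]
  split_ifs <;> simp_all

theorem rk_x (b u x y : κ) : rk idx b u x y x ≤ 2 := by
  simp only [rk]
  split_ifs <;> simp_all

theorem rk_y (b u x y : κ) : rk idx b u x y y ≤ 3 := by
  simp only [rk]
  split_ifs <;> simp_all

end rk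

/-- the core with `s + 2` symbols -/
theorem lower_core (s ℓ : ℕ) : HasCore s ℓ (s + 2) := by
  classical
  let κ := Option (Fin (s + 1))
  let ι := {p : κ × Fin (s + 1) // p.1 ≠ some p.2}
  let idx : κ → ℕ := fun a => (Fintype.equivFin κ a : ℕ)
  have hidx : Function.Injective idx := fun a b h => (Fintype.equivFin κ).injective (Fin.ext h)
  let ρ : ι → κ → ℕ := fun r => rk idx r.1.1 (some r.1.2) none none
  let e : κ → ℕ := fun a => if a = none then 1 else 0
  have hκ : Fintype.card κ = s + 2 := by simp [κ]
  have hfib : ∀ b : κ, s + e b = (univ.filter fun r : ι => r.1.1 = b).card := by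
    intro b
    have h1 : (univ.filter fun r : ι => r.1.1 = b).card =
        (univ.filter fun j : Fin (s + 1) => b ≠ some j).card := by
      refine card_bij' (fun r _ => r.1.2)
        (fun j hj => ⟨(b, j), (mem_filter.1 hj).2⟩) ?_ ?_ ?_ ?_
      · rintro ⟨⟨b', j⟩, hr⟩ h
        rw [mem_filter] at h ⊢
        simp only at h
        refine ⟨mem_univ _, ?_⟩
        rw [← h.2]
        exact hr
      · intro j hj
        simp
      · rintro ⟨⟨b', j⟩, hr⟩ h
        rw [mem_filter] at h
        simp only at h
        obtain ⟨_, rfl⟩ := h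
        rfl
      · intro j hj
        rfl
    rw [h1]
    rcases b with _ | i
    · simp [e]
    · have h2 : (univ.filter fun j : Fin (s + 1) => (some i : κ) ≠ some j) = univ.erase i := by
        ext j
        simp only [mem_filter, mem_univ, true_and, mem_erase, and_true, ne_eq, Option.some.injEq]
        exact ⟨fun h h' => h h'.symm, fun h h' => h h'.symm⟩
      rw [h2, card_erase_of_mem (mem_univ _)]
      simp [e]
  have hcore : Core (2 * s + 1) ρ := by
    refine core_of_cover (n0 := s) ρ (fun r => r.1.1) e (fun r => rk_inj hidx _ _ _ _)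
      (fun r a => rk_first _ _ _ _ _) (fun b => (hfib b).le) ?_ (by rw [hκ]; omega)
    intro a B ha hB
    rcases a with _ | j
    · -- the symbol `none`
      have h2 : B.card = 2 := by simpa [e] using hB
      obtain ⟨u, v, huv, rfl⟩ := card_eq_two.1 h2
      rcases hv : v with _ | j
      · exfalso
        apply ha
        rw [hv]
        simp
      · refine ⟨⟨(u, j), by rw [← hv]; exact huv⟩, by simp, ?_⟩
        intro c hc
        have h3 : rk idx u (some j) none none c < 2 := lt_of_lt_of_le hc (rk_x _ _ _ _)
        rcases rk_lt_two h3 with rfl | rfl <;> simp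
    · have h1 : B.card = 1 := by simpa [e] using hB
      obtain ⟨b, rfl⟩ := card_eq_one.1 h1
      have hb : b ≠ some j := fun h => ha (by rw [h]; simp)
      refine ⟨⟨(b, j), hb⟩, by simp, ?_⟩
      intro c hc
      have h3 : rk idx b (some j) none none c < 1 := lt_of_lt_of_le hc (rk_u _ _ _ _)
      rw [rk_lt_one h3]
      simp
  have hι : Fintype.card ι ≤ (s + 1) ^ 2 + ℓ := by
    have h1 : Fintype.card ι = ∑ b : κ, (univ.filter fun r : ι => r.1.1 = b).card := by
      rw [← card_univ]
      exact card_eq_sum_card_fiberwise (fun _ _ => by simp)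
    rw [h1, ← sum_congr rfl (fun b _ => hfib b), sum_add_distrib, sum_const, card_univ, hκ]
    have h2 : ∑ b : κ, e b = 1 := by
      show ∑ b : Option (Fin (s + 1)), (if b = none then 1 else 0) = 1
      rw [Fintype.sum_option]
      simp
    rw [h2, smul_eq_mul]
    nlinarith
  obtain ⟨ρ', hρ'⟩ := core_more hι ρ hcore
  exact ⟨κ, inferInstance, ρ', hκ, hρ'⟩

end Pool.Agent.T6.H79.SC
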