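import Pool.Agent.T6.H79.SC.C1

set_option autoImplicit false

namespace Pool.Agent.T6.H79.SC

open Finset

structure Cfg (P Z : Type) [Fintype P] [DecidableEq P] [Fintype Z] [DecidableEq Z] where
  e : P → ℕ
  r : P
  e_pos : ∀ p, 1 ≤ e p
  e_r : 2 ≤ e r
  hm : 3 ≤ Fintype.card P
  T : Z → Finset P
  T_card : ∀ z, (T z).card = 3
  col : Z → Z → P
  col_comm : ∀ z w, T z = T w → z ≠ w → col z w = col w z
  col_mem : ∀ z w, T z = T w → z ≠ w → col z w ∈ T z
  clique : ∀ q, ∀ B : Finset Z, (∀ z ∈ B, q ∈ T z) →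
    (∀ z ∈ B, ∀ w ∈ B, z ≠ w → T z = T w ∧ col z w = q) → B.card ≤ e q

namespace Cfg

variable {P Z : Type} [Fintype P] [DecidableEq P] [Fintype Z] [DecidableEq Z] (C : Cfg P Z)

theorem exists_D (p : P) : ∃ D : Finset P, p ∉ D ∧ D.card = 3 - C.e p ∧ (C.e p = 1 → C.r ∈ D) := by
  have hp := C.e_pos p
  have hcard : (univ.erase p : Finset P).card = Fintype.card P - 1 := by
    rw [card_erase_of_mem (mem_univ _), card_univ]
  have hm := C.hm
  by_cases h1 : C.e p = 1
  · have hrp : C.r ≠ p := fun h => by
      have := C.e_r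
      rw [h] at this
      omega
    obtain ⟨D, hD1, hD2, hD3⟩ := exists_subsuperset_card_eq (s := {C.r})
      (t := (univ.erase p : Finset P)) (n := 2) (by simpa using hrp) (by simp) (by omega)
    refine ⟨D, fun h => ?_, by omega, fun _ => hD1 (by simp)⟩
    have := hD2 h
    simp at this
  · obtain ⟨D, hD1, hD2⟩ := exists_subset_card_eq (s := (univ.erase p : Finset P))
      (n := 3 - C.e p) (by omega)
    refine ⟨D, fun h => ?_, hD2, fun h => absurd h h1⟩
    have := hD1 h
    simp at this

noncomputable def Dp (p : P) : Finset P := (C.exists_D p).choose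

theorem notMem_Dp (p : P) : p ∉ C.Dp p := (C.exists_D p).choose_spec.1
theorem card_Dp (p : P) : (C.Dp p).card = 3 - C.e p := (C.exists_D p).choose_spec.2.1
theorem r_mem_Dp (p : P) (h : C.e p = 1) : C.r ∈ C.Dp p := (C.exists_D p).choose_spec.2.2 h

theorem card_Dp_le (p : P) : (C.Dp p).card ≤ 2 := by
  rw [card_Dp]
  have := C.e_pos p
  omega

noncomputable def D : Z ⊕ P → Finset P
  | Sum.inl z => C.T z
  | Sum.inr p => C.Dp p

/-- the excess -/
def ex : Z ⊕ P → ℕ
  | Sum.inl _ => 0
  | Sum.inr p => C.e p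

theorem card_D (b : Z ⊕ P) : (C.D b).card = 3 - C.ex b := by
  rcases b with z | p
  · exact C.T_card z
  · exact C.card_Dp p

def arc (b c : Z ⊕ P) : Prop := ∃ p ∈ C.D b, c = Sum.inr p

theorem not_arc_inl (b : Z ⊕ P) (z : Z) : ¬ C.arc b (Sum.inl z) := by
  rintro ⟨p, _, h⟩
  cases h

theorem arc_inr (b : Z ⊕ P) (p : P) : C.arc b (Sum.inr p) ↔ p ∈ C.D b := by
  constructor
  · rintro ⟨q, hq, h⟩
    cases h
    exact hq
  · intro h
    exact ⟨p, h, rfl⟩

theorem not_arc_self (b : Z ⊕ P) : ¬ C.arc b b := by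
  rcases b with z | p
  · exact C.not_arc_inl _ z
  · rw [arc_inr]
    exact C.notMem_Dp p

def same (b c : Z ⊕ P) : Prop := ∃ z w, b = Sum.inl z ∧ c = Sum.inl w ∧ C.T z = C.T w

theorem same_comm (b c : Z ⊕ P) : C.same b c ↔ C.same c b := by
  constructor
  · rintro ⟨z, w, h1, h2, h3⟩; exact ⟨w, z, h2, h1, h3.symm⟩
  · rintro ⟨z, w, h1, h2, h3⟩; exact ⟨w, z, h2, h1, h3.symm⟩

open Classical in
/-- the missing symbol -/
noncomputable def mis (b c : Z ⊕ P) : P :=
  match b, c with
  | Sum.inl z, Sum.inl w => if C.T z = C.T w then C.col z w else C.r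
  | _, _ => C.r

open Classical in
noncomputable def p1 (F : Finset P) : P := if h : F.Nonempty then h.choose else C.r

noncomputable def p2 (F : Finset P) : P := C.p1 (F.erase (C.p1 F))

theorem p1_mem {F : Finset P} (h : F.Nonempty) : C.p1 F ∈ F := by
  rw [p1, dif_pos h]
  exact h.choose_spec

theorem p1_one {F : Finset P} (h : F.card ≤ 1) {q : P} (hq : q ∈ F) : C.p1 F = q :=
  card_le_one.1 h _ (C.p1_mem ⟨q, hq⟩) _ hq

theorem p12 {F : Finset P} (h : F.card ≤ 2) {q : P} (hq : q ∈ F) : C.p1 F = q ∨ C.p2 F = q := by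
  by_cases h1 : C.p1 F = q
  · exact Or.inl h1
  · right
    apply C.p1_one _ (mem_erase.2 ⟨fun h => h1 h.symm, hq⟩)
    rw [card_erase_of_mem (C.p1_mem ⟨q, hq⟩)]
    omega

open Classical in
noncomputable def F (b c : Z ⊕ P) : Finset P :=
  if C.same b c then (C.D b ∩ C.D c).erase (C.mis b c)
  else if C.arc b c ∨ C.arc c b then
    (if (C.D b ∩ C.D c).card ≤ 1 then C.D b ∩ C.D c else (C.D b ∩ C.D c).erase C.r)
  else C.D b ∩ C.D c

theorem mis_comm (b c : Z ⊕ P) (h : C.same b c) (hbc : b ≠ c) : C.mis b c = C.mis c b := by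
  obtain ⟨z, w, rfl, rfl, h⟩ := h
  have hzw : z ≠ w := fun h => hbc (by rw [h])
  simp only [mis, h, if_true]
  exact C.col_comm z w h hzw

theorem F_comm (b c : Z ⊕ P) (hbc : b ≠ c) : C.F b c = C.F c b := by
  classical
  by_cases h : C.same b c
  · rw [F, F, if_pos h, if_pos ((C.same_comm b c).1 h), inter_comm, C.mis_comm b c h hbc]
  · rw [F, F, if_neg h, if_neg (fun h' => h ((C.same_comm b c).2 h')), inter_comm (C.D b)]
    by_cases h2 : C.arc b c ∨ C.arc c b
    · rw [if_pos h2, if_pos h2.symm]
    · rw [if_neg h2, if_neg (fun h' => h2 h'.symm)]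

theorem inter_le (b c : Z ⊕ P) (hbc : b ≠ c) (h : ¬ C.same b c) : (C.D b ∩ C.D c).card ≤ 2 := by
  rcases b with z | p
  · rcases c with w | p'
    · have hne : C.T z ≠ C.T w := fun h' => h ⟨z, w, rfl, rfl, h'⟩
      by_contra hlt
      rw [not_le] at hlt
      have h1 : C.T z ∩ C.T w = C.T z := eq_of_subset_of_card_le inter_subset_left (by
        rw [C.T_card]; exact hlt)
      have h2 : C.T z ∩ C.T w = C.T w := eq_of_subset_of_card_le inter_subset_right (by
        rw [C.T_card]; exact hlt)
      exact hne (h1.symm.trans h2)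
    · exact (card_le_card inter_subset_right).trans (C.card_Dp_le p')
  · exact (card_le_card inter_subset_left).trans (C.card_Dp_le p)

theorem F_le_two (b c : Z ⊕ P) (hbc : b ≠ c) : (C.F b c).card ≤ 2 := by
  classical
  rw [F]
  split_ifs with h1 h2 h3
  · obtain ⟨z, w, rfl, rfl, h⟩ := h1
    have hzw : z ≠ w := fun h => hbc (by rw [h])
    have hD : C.D (Sum.inl z) ∩ C.D (Sum.inl w) = C.T z := by
      show C.T z ∩ C.T w = C.T z
      rw [← h, inter_self]
    rw [hD]
    have hm : C.mis (Sum.inl z) (Sum.inl w) ∈ C.T z := by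
      simp only [mis, h, if_true]
      rw [← h]
      exact C.col_mem z w h hzw
    rw [card_erase_of_mem hm, C.T_card]
  · omega
  · exact (card_le_card (erase_subset _ _)).trans (C.inter_le b c hbc h1)
  · exact C.inter_le b c hbc h1

/-- exactly one row: at most one symbol to cover -/
theorem F_le_one (b c : Z ⊕ P) (hbc : b ≠ c) (h : C.arc c b) : (C.F b c).card ≤ 1 := by
  classical
  obtain ⟨p, hp, rfl⟩ := h
  have h1 : ¬ C.same (Sum.inr p) c := by
    rintro ⟨z, w, h, _⟩
    cases h
  rw [F, if_neg h1, if_pos (Or.inr ⟨p, hp, rfl⟩)]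
  split_ifs with h3
  · exact h3
  · have h4 : (C.D (Sum.inr p) ∩ C.D c).card ≤ (C.Dp p).card := card_le_card inter_subset_left
    have h5 := C.card_Dp_le p
    have h6 : C.D (Sum.inr p) ∩ C.D c = C.Dp p :=
      eq_of_subset_of_card_le inter_subset_left (by
        show (C.Dp p).card ≤ _
        omega)
    have h7 : C.e p = 1 := by
      have := C.card_Dp p
      have := C.e_pos p
      omega
    rw [h6, card_erase_of_mem (C.r_mem_Dp p h7)]
    omega

open Classical in
/-- the third symbol of the row `(b, c)` -/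
noncomputable def x (idx : Z ⊕ P → ℕ) (b c : Z ⊕ P) : P :=
  if C.arc c b then C.p1 (C.F b c) else if idx b < idx c then C.p1 (C.F b c) else C.p2 (C.F b c)

theorem x_both {idx : Z ⊕ P → ℕ} (hidx : Function.Injective idx) (b c : Z ⊕ P) (hbc : b ≠ c)
    (h1 : ¬ C.arc b c) (h2 : ¬ C.arc c b) {q : P} (hq : q ∈ C.F b c) :
    C.x idx b c = q ∨ C.x idx c b = q := by
  have hne : idx b ≠ idx c := fun h => hbc (hidx h)
  have h3 := C.p12 (C.F_le_two b c hbc) hq
  rw [x, x, if_neg h1, if_neg h2, ← C.F_comm b c hbc]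
  rcases lt_or_gt_of_ne hne with h | h
  · rw [if_pos h, if_neg (by omega)]
    exact h3
  · rw [if_neg (by omega), if_pos h]
    exact h3.symm

theorem x_one {idx : Z ⊕ P → ℕ} (b c : Z ⊕ P) (hbc : b ≠ c)
    (h : C.arc c b) {q : P} (hq : q ∈ C.F b c) : C.x idx b c = q := by
  rw [x, if_pos h]
  exact C.p1_one (C.F_le_one b c hbc h) hq

/-- the covering property -/
theorem cover {idx : Z ⊕ P → ℕ} (hidx : Function.Injective idx) (q : P) (B : Finset (Z ⊕ P))
    (hqB : Sum.inr q ∉ B) (hB : B.card = C.e q + 1) :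
    ∃ b ∈ B, ∃ u, u ≠ b ∧ ¬ C.arc b u ∧ (u = Sum.inr q ∨
      (u ∈ B ∧ (C.x idx b u = q ∨ (Sum.inr (C.x idx b u) ∈ B ∧ C.mis b u = q)))) := by
  classical
  by_contra hcon
  have c1 : ∀ b ∈ B, q ∈ C.D b := by
    intro b hb
    by_contra h
    exact hcon ⟨b, hb, Sum.inr q, fun h' => hqB (h' ▸ hb), by rwa [arc_inr], Or.inl rfl⟩
  have c2 : ∀ b ∈ B, ∀ c ∈ B, b ≠ c → ¬ C.arc b c → C.x idx b c ≠ q := by
    intro b hb c hc hbc harc h
    exact hcon ⟨b, hb, c, hbc.symm, harc, Or.inr ⟨hc, Or.inl h⟩⟩
  have c3 : ∀ b ∈ B, ∀ c ∈ B, b ≠ c → ¬ C.arc b c → Sum.inr (C.x idx b c) ∈ B →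
      C.mis b c ≠ q := by
    intro b hb c hc hbc harc h h'
    exact hcon ⟨b, hb, c, hbc.symm, harc, Or.inr ⟨hc, Or.inr ⟨h, h'⟩⟩⟩
  have hqD : ∀ b ∈ B, ∀ c ∈ B, q ∈ C.D b ∩ C.D c := fun b hb c hc =>
    mem_inter.2 ⟨c1 b hb, c1 c hc⟩
  have c4 : ∀ b ∈ B, ∀ c ∈ B, b ≠ c → C.same b c ∨ C.arc b c ∨ C.arc c b := by
    intro b hb c hc hbc
    by_contra h
    rw [not_or, not_or] at h
    have hF : q ∈ C.F b c := by
      rw [F, if_neg h.1, if_neg (by rintro (h' | h'); exacts [h.2.1 h', h.2.2 h'])]
      exact hqD b hb c hc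
    rcases C.x_both hidx b c hbc h.2.1 h.2.2 hF with h' | h'
    · exact c2 b hb c hc hbc h.2.1 h'
    · exact c2 c hc b hb hbc.symm h.2.2 h'
  have same_arc : ∀ b c, C.same b c → ¬ C.arc b c ∧ ¬ C.arc c b := by
    rintro b c ⟨z, w, rfl, rfl, _⟩
    exact ⟨C.not_arc_inl _ _, C.not_arc_inl _ _⟩
  have c5 : ∀ b ∈ B, ∀ c ∈ B, b ≠ c → C.same b c → C.mis b c = q := by
    intro b hb c hc hbc hs
    by_contra h
    have hF : q ∈ C.F b c := by
      rw [F, if_pos hs, mem_erase]
      exact ⟨fun h' => h h'.symm, hqD b hb c hc⟩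
    rcases C.x_both hidx b c hbc (same_arc b c hs).1 (same_arc b c hs).2 hF with h' | h'
    · exact c2 b hb c hc hbc (same_arc b c hs).1 h'
    · exact c2 c hc b hb hbc.symm (same_arc b c hs).2 h'
  have c6 : ∀ b ∈ B, ∀ c ∈ B, b ≠ c → C.arc c b → ¬ C.arc b c →
      2 ≤ (C.D b ∩ C.D c).card ∧ q = C.r := by
    intro b hb c hc hbc h1 h2
    have hs : ¬ C.same b c := fun h => (same_arc b c h).2 h1
    have hF : q ∉ C.F b c := fun h => c2 b hb c hc hbc h2 (C.x_one b c hbc h1 h)
    rw [F, if_neg hs, if_pos (Or.inr h1)] at hF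
    by_cases h3 : (C.D b ∩ C.D c).card ≤ 1
    · rw [if_pos h3] at hF
      exact absurd (hqD b hb c hc) hF
    · rw [if_neg h3, mem_erase, not_and_or, not_ne_iff] at hF
      rcases hF with hF | hF
      · exact ⟨by omega, hF⟩
      · exact absurd (hqD b hb c hc) hF
  by_cases hP : ∃ p, Sum.inr p ∈ B
  · obtain ⟨p, hp⟩ := hP
    have hpq : p ≠ q := fun h => hqB (h ▸ hp)
    -- arcs between `inl` elements and `inr` elements
    have c7 : ∀ z, Sum.inl z ∈ B → ∀ p, Sum.inr p ∈ B → p ∈ C.T z := by
      intro z hz p hp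
      rcases c4 _ hz _ hp (by simp) with h | h | h
      · obtain ⟨_, _, _, h, _⟩ := h
        cases h
      · exact (C.arc_inr _ _).1 h
      · exact absurd h (C.not_arc_inl _ _)
    by_cases h2 : ∃ z w, z ≠ w ∧ Sum.inl z ∈ B ∧ Sum.inl w ∈ B
    · -- case II
      obtain ⟨z, w, hzw, hz, hw⟩ := h2
      have hne : (Sum.inl z : Z ⊕ P) ≠ Sum.inl w := fun h => hzw (Sum.inl_injective h)
      have hs : C.same (Sum.inl z) (Sum.inl w) := by
        rcases c4 _ hz _ hw hne with h | h | h
        · exact h
        · exact absurd h (C.not_arc_inl _ _)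
        · exact absurd h (C.not_arc_inl _ _)
      have hm := c5 _ hz _ hw hne hs
      have hF : p ∈ C.F (Sum.inl z) (Sum.inl w) := by
        rw [F, if_pos hs, mem_erase, hm, mem_inter]
        exact ⟨hpq, c7 z hz p hp, c7 w hw p hp⟩
      rcases C.x_both hidx _ _ hne (C.not_arc_inl _ _) (C.not_arc_inl _ _) hF with h | h
      · exact c3 _ hz _ hw hne (C.not_arc_inl _ _) (by rw [h]; exact hp) hm
      · exact c3 _ hw _ hz hne.symm (C.not_arc_inl _ _) (by rw [h]; exact hp)
          (by rw [← C.mis_comm _ _ hs hne]; exact hm)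
    · by_cases h3 : ∃ z, Sum.inl z ∈ B
      · -- case III
        obtain ⟨z, hz⟩ := h3
        have harc : C.arc (Sum.inl z) (Sum.inr p) := (C.arc_inr _ _).2 (c7 z hz p hp)
        have hne : (Sum.inr p : Z ⊕ P) ≠ Sum.inl z := by simp
        obtain ⟨h4, h5⟩ := c6 _ hp _ hz hne harc (C.not_arc_inl _ _)
        have h6 : 3 ≤ B.card := by
          rw [hB, h5]
          have := C.e_r
          omega
        -- a third element
        obtain ⟨c, hc, hc1⟩ : ∃ c ∈ B, c ∉ ({Sum.inl z, Sum.inr p} : Finset (Z ⊕ P)) := by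
          apply exists_mem_notMem_of_card_lt_card
          rw [card_pair (by simp)]
          omega
        rw [mem_insert, mem_singleton, not_or] at hc1
        rcases c with w | p'
        · exact h2 ⟨z, w, fun h => hc1.1 (by rw [h]), hz, hc⟩
        · have hp'p : p' ≠ p := fun h => hc1.2 (by rw [h])
          have hp'q : p' ≠ q := fun h => hqB (h ▸ hc)
          have hp'T := c7 z hz p' hc
          have hpT := c7 z hz p hp
          have hqT : q ∈ C.T z := c1 _ hz
          -- T z = {p, p', q}
          have hT : C.T z = {p, p', q} := by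
            symm
            apply eq_of_subset_of_card_le
            · intro y hy
              simp only [mem_insert, mem_singleton] at hy
              rcases hy with rfl | rfl | rfl <;> assumption
            · rw [C.T_card]
              exact (card_eq_three.2 ⟨p, p', q, hp'p.symm, hpq, hp'q, rfl⟩).ge
          have hsub : C.Dp p ∩ C.T z ⊆ {p', q} := by
            intro y hy
            rw [mem_inter, hT] at hy
            have hyp : y ≠ p := fun h => C.notMem_Dp p (h ▸ hy.1)
            simp only [mem_insert, mem_singleton] at hy ⊢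
            rcases hy.2 with h | h | h
            · exact absurd h hyp
            · exact Or.inl h
            · exact Or.inr h
          have heq : C.Dp p ∩ C.T z = {p', q} := eq_of_subset_of_card_le hsub (by
            rw [card_pair hp'q]; exact h4)
          have hF : p' ∈ C.F (Sum.inr p) (Sum.inl z) := by
            have hs : ¬ C.same (Sum.inr p) (Sum.inl z) := fun h => (same_arc _ _ h).2 harc
            have h7 : ¬ (C.D (Sum.inr p) ∩ C.D (Sum.inl z)).card ≤ 1 := by omega
            rw [F, if_neg hs, if_pos (Or.inr harc), if_neg h7, mem_erase, ← h5]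
            refine ⟨hp'q, ?_⟩
            show p' ∈ C.Dp p ∩ C.T z
            rw [heq]
            simp
          have hx := C.x_one (idx := idx) _ _ hne harc hF
          refine c3 _ hp _ hz hne (C.not_arc_inl _ _) (by rw [hx]; exact hc) ?_
          show C.r = q
          exact h5.symm
      · -- case IV
        have hall : ∀ b ∈ B, ∃ p, b = Sum.inr p := by
          intro b hb
          rcases b with z | p
          · exact absurd ⟨z, hb⟩ h3
          · exact ⟨p, rfl⟩
        have hmut : ∀ p p', Sum.inr p ∈ B → Sum.inr p' ∈ B → p ≠ p' → p' ∈ C.Dp p := by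
          intro p p' hp hp' hne
          by_contra h
          have hne' : (Sum.inr p : Z ⊕ P) ≠ Sum.inr p' := fun h => hne (Sum.inr_injective h)
          have hna : ¬ C.arc (Sum.inr p) (Sum.inr p') := fun h' => h ((C.arc_inr _ _).1 h')
          have harc : C.arc (Sum.inr p') (Sum.inr p) := by
            rcases c4 _ hp _ hp' hne' with h' | h' | h'
            · obtain ⟨_, _, h', _⟩ := h'
              cases h'
            · exact absurd h' hna
            · exact h'
          have h4 := (c6 _ hp _ hp' hne' harc hna).1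
          have h5 : C.D (Sum.inr p) ∩ C.D (Sum.inr p') ⊆ (C.Dp p').erase p := by
            intro y hy
            have hy' : y ∈ C.Dp p ∧ y ∈ C.Dp p' := mem_inter.1 hy
            rw [mem_erase]
            exact ⟨fun h => C.notMem_Dp p (h ▸ hy'.1), hy'.2⟩
          have h6 := card_le_card h5
          have h8 : p ∈ C.Dp p' := (C.arc_inr _ _).1 harc
          rw [card_erase_of_mem h8] at h6
          have h7 := C.card_Dp_le p'
          omega
        have hBc : 1 < B.card := by
          rw [hB]
          have := C.e_pos q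
          omega
        obtain ⟨c, hc, hcp⟩ := exists_mem_ne hBc (Sum.inr p)
        obtain ⟨p', rfl⟩ := hall c hc
        have hpp' : p ≠ p' := fun h => hcp (by rw [h])
        have hp'q : p' ≠ q := fun h => hqB (h ▸ hc)
        have hq1 : q ∈ C.Dp p := c1 _ hp
        have hq2 : q ∈ C.Dp p' := c1 _ hc
        have m1 := hmut p p' hp hc hpp'
        have m2 := hmut p' p hc hp hpp'.symm
        have hDp : C.Dp p = {p', q} := by
          symm
          apply eq_of_subset_of_card_le
          · intro y hy
            simp only [mem_insert, mem_singleton] at hy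
            rcases hy with rfl | rfl <;> assumption
          · rw [card_pair hp'q]
            exact C.card_Dp_le p
        have hDp' : C.Dp p' = {p, q} := by
          symm
          apply eq_of_subset_of_card_le
          · intro y hy
            simp only [mem_insert, mem_singleton] at hy
            rcases hy with rfl | rfl <;> assumption
          · rw [card_pair hpq]
            exact C.card_Dp_le p'
        have he1 : C.e p = 1 := by
          have h4 := C.card_Dp p
          have h5 := C.e_pos p
          rw [hDp, card_pair hp'q] at h4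
          omega
        have he2 : C.e p' = 1 := by
          have h4 := C.card_Dp p'
          have h5 := C.e_pos p'
          rw [hDp', card_pair hpq] at h4
          omega
        have hr := C.r_mem_Dp p he1
        rw [hDp, mem_insert, mem_singleton] at hr
        have her := C.e_r
        rcases hr with hr | hr
        · rw [hr] at her
          omega
        · have h6 : 3 ≤ B.card := by
            rw [hB, ← hr]
            omega
          obtain ⟨c, hc', hc1⟩ : ∃ c ∈ B, c ∉ ({Sum.inr p, Sum.inr p'} : Finset (Z ⊕ P)) := by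
            apply exists_mem_notMem_of_card_lt_card
            rw [card_pair (fun h => hpp' (Sum.inr_injective h))]
            omega
          rw [mem_insert, mem_singleton, not_or] at hc1
          obtain ⟨p'', rfl⟩ := hall c hc'
          have h7 := hmut p p'' hp hc' (fun h => hc1.1 (by rw [h]))
          rw [hDp, mem_insert, mem_singleton] at h7
          rcases h7 with h7 | h7
          · exact hc1.2 (by rw [h7])
          · exact hqB (h7 ▸ hc')
  · -- case I: all elements are in `Z`
    have hall : ∀ b ∈ B, ∃ z, b = Sum.inl z := by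
      intro b hb
      rcases b with z | p
      · exact ⟨z, rfl⟩
      · exact absurd ⟨p, hb⟩ hP
    let B' : Finset Z := univ.filter fun z => Sum.inl z ∈ B
    have hBB : B = B'.map ⟨Sum.inl, Sum.inl_injective⟩ := by
      ext b
      rw [mem_map]
      constructor
      · intro hb
        obtain ⟨z, rfl⟩ := hall b hb
        exact ⟨z, mem_filter.2 ⟨mem_univ _, hb⟩, rfl⟩
      · rintro ⟨z, hz, rfl⟩
        exact (mem_filter.1 hz).2
    have h1 := C.clique q B' (fun z hz => c1 _ (mem_filter.1 hz).2) (by
      intro z hz w hw hzw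
      have hz' := (mem_filter.1 hz).2
      have hw' := (mem_filter.1 hw).2
      have hne : (Sum.inl z : Z ⊕ P) ≠ Sum.inl w := fun h => hzw (Sum.inl_injective h)
      have hs : C.same (Sum.inl z) (Sum.inl w) := by
        rcases c4 _ hz' _ hw' hne with h | h | h
        · exact h
        · exact absurd h (C.not_arc_inl _ _)
        · exact absurd h (C.not_arc_inl _ _)
      have hT : C.T z = C.T w := by
        obtain ⟨z', w', h1, h2, h3⟩ := hs
        rw [Sum.inl_injective h1, Sum.inl_injective h2]
        exact h3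
      refine ⟨hT, ?_⟩
      have := c5 _ hz' _ hw' hne hs
      simpa only [mis, hT, if_true] using this)
    rw [hBB, card_map] at hB
    omega

end Cfg

end Pool.Agent.T6.H79.SC
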