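import Pool.Agent.T6.H79.SC.C2
import Pool.Agent.T6.H79.SC.R

set_option autoImplicit false

namespace Pool.Agent.T6.H79.SC

open Finset

namespace Cfg

variable {P Z : Type} [Fintype P] [DecidableEq P] [Fintype Z] [DecidableEq Z] (C : Cfg P Z)

/-- the second symbols of the rows starting with `b` -/
noncomputable def sec (b : Z ⊕ P) : Finset (Z ⊕ P) :=
  (univ.erase b) \ ((C.D b).map ⟨Sum.inr, Sum.inr_injective⟩)

theorem mem_sec (b u : Z ⊕ P) : u ∈ C.sec b ↔ u ≠ b ∧ ¬ C.arc b u := by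
  rw [sec, mem_sdiff, mem_erase, mem_map]
  constructor
  · rintro ⟨⟨h1, _⟩, h2⟩
    refine ⟨h1, ?_⟩
    rintro ⟨p, hp, rfl⟩
    exact h2 ⟨p, hp, rfl⟩
  · rintro ⟨h1, h2⟩
    refine ⟨⟨h1, mem_univ _⟩, ?_⟩
    rintro ⟨p, hp, h⟩
    exact h2 ⟨p, hp, h.symm⟩

theorem card_sec (b : Z ⊕ P) : (C.sec b).card + (3 - C.ex b) + 1 =
    Fintype.card Z + Fintype.card P := by
  have h1 : (C.D b).map ⟨Sum.inr, Sum.inr_injective⟩ ⊆ univ.erase b := by
    intro u hu
    obtain ⟨p, hp, rfl⟩ := mem_map.1 hu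
    rw [mem_erase]
    refine ⟨?_, mem_univ _⟩
    rintro rfl
    exact C.not_arc_self _ ⟨p, hp, rfl⟩
  have h2 := card_le_card h1
  rw [sec, card_sdiff_of_subset h1, card_map, C.card_D] 
  rw [card_map, C.card_D, card_erase_of_mem (mem_univ _), card_univ, Fintype.card_sum] at h2
  rw [card_erase_of_mem (mem_univ _), card_univ, Fintype.card_sum]
  have hm := C.hm
  omega

/-- the rows -/
abbrev Rows : Type := Σ b : Z ⊕ P, ((C.sec b) ⊕ Fin (C.ex b - 3))

noncomputable def idx : Z ⊕ P → ℕ := fun b => (Fintype.equivFin (Z ⊕ P) b : ℕ)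

theorem idx_inj : Function.Injective (idx (P := P) (Z := Z)) := fun _ _ h =>
  (Fintype.equivFin (Z ⊕ P)).injective (Fin.ext h)

noncomputable def ρ (r : C.Rows) : Z ⊕ P → ℕ :=
  match r with
  | ⟨b, Sum.inl u⟩ => rk idx b u.1 (Sum.inr (C.x idx b u.1)) (Sum.inr (C.mis b u.1))
  | ⟨b, Sum.inr _⟩ => rk idx b b b b

theorem ρ_inj (r : C.Rows) : Function.Injective (C.ρ r) := by
  rcases r with ⟨b, u | j⟩
  · exact rk_inj idx_inj _ _ _ _
  · exact rk_inj idx_inj _ _ _ _

theorem ρ_first (r : C.Rows) (a : Z ⊕ P) : C.ρ r r.1 ≤ C.ρ r a := by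
  rcases r with ⟨b, u | j⟩
  · exact rk_first _ _ _ _ _
  · exact rk_first _ _ _ _ _

theorem cover_rows (a : Z ⊕ P) (B : Finset (Z ⊕ P)) (haB : a ∉ B) (hB : B.card = C.ex a + 1) :
    ∃ r : C.Rows, r.1 ∈ B ∧ ∀ c, C.ρ r c < C.ρ r a → c ∈ B := by
  rcases a with z | q
  · have h1 : B.card = 1 := hB
    obtain ⟨b, rfl⟩ := card_eq_one.1 h1
    have hb : b ≠ Sum.inl z := fun h => haB (by rw [h]; simp)
    refine ⟨⟨b, Sum.inl ⟨Sum.inl z, (C.mem_sec _ _).2 ⟨hb.symm, C.not_arc_inl _ _⟩⟩⟩, by simp, ?_⟩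
    intro c hc
    have h3 : rk idx b (Sum.inl z) (Sum.inr (C.x idx b (Sum.inl z)))
        (Sum.inr (C.mis b (Sum.inl z))) c < 1 := lt_of_lt_of_le hc (rk_u _ _ _ _)
    rw [rk_lt_one h3]
    simp
  · obtain ⟨b, hb, u, hub, harc, h⟩ := C.cover idx_inj q B haB hB
    refine ⟨⟨b, Sum.inl ⟨u, (C.mem_sec _ _).2 ⟨hub, harc⟩⟩⟩, hb, ?_⟩
    intro c hc
    have hc' : rk idx b u (Sum.inr (C.x idx b u)) (Sum.inr (C.mis b u)) c <
      rk idx b u (Sum.inr (C.x idx b u)) (Sum.inr (C.mis b u)) (Sum.inr q) := hc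
    rcases h with h | ⟨huB, h | ⟨hxB, h⟩⟩
    · rw [← h] at hc'
      have h3 := lt_of_lt_of_le hc' (rk_u _ _ _ _)
      rw [rk_lt_one h3]
      exact hb
    · have h3 : rk idx b u (Sum.inr (C.x idx b u)) (Sum.inr (C.mis b u)) c < 2 := by
        refine lt_of_lt_of_le hc' ?_
        rw [h]
        exact rk_x _ _ _ _
      rcases rk_lt_two h3 with h4 | h4
      · rw [h4]; exact hb
      · rw [h4]; exact huB
    · have h3 : rk idx b u (Sum.inr (C.x idx b u)) (Sum.inr (C.mis b u)) c < 3 := by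
        refine lt_of_lt_of_le hc' ?_
        rw [h]
        exact rk_y _ _ _ _
      rcases rk_lt_three h3 with h4 | h4 | h4
      · rw [h4]; exact hb
      · rw [h4]; exact huB
      · rw [h4]; exact hxB

theorem card_fiber (b : Z ⊕ P) : (univ.filter fun r : C.Rows => r.1 = b).card =
    (C.sec b).card + (C.ex b - 3) := by
  classical
  have h1 : (univ.filter fun r : C.Rows => r.1 = b).card =
      (univ : Finset ((C.sec b) ⊕ Fin (C.ex b - 3))).card := by
    symm
    refine card_bij (fun u _ => (⟨b, u⟩ : C.Rows)) ?_ ?_ ?_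
    · intro u _
      simp
    · intro u _ u' _ h
      simpa using h
    · rintro ⟨b', u⟩ h
      rw [mem_filter] at h
      obtain ⟨_, rfl⟩ := h
      exact ⟨u, mem_univ _, rfl⟩
  rw [h1, card_univ, Fintype.card_sum, Fintype.card_coe, Fintype.card_fin]

theorem hasCore {s ℓ : ℕ} (hs : 1 ≤ s) (hsz : Fintype.card Z + Fintype.card P = s + 3)
    (hsum : ∑ p, C.e p = ℓ + 4) : HasCore s ℓ (s + 3) := by
  classical
  have hfib : ∀ b : Z ⊕ P, s - 1 + C.ex b = (univ.filter fun r : C.Rows => r.1 = b).card := by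
    intro b
    rw [C.card_fiber]
    have := C.card_sec b
    omega
  have hκ : Fintype.card (Z ⊕ P) = s + 3 := by rw [Fintype.card_sum]; exact hsz
  have hcore : Core (2 * s + 1) C.ρ :=
    core_of_cover (n0 := s - 1) C.ρ (fun r => r.1) C.ex C.ρ_inj C.ρ_first
      (fun b => (hfib b).le) C.cover_rows (by rw [hκ]; omega)
  have hι : Fintype.card C.Rows ≤ (s + 1) ^ 2 + ℓ := by
    have h1 : Fintype.card C.Rows = ∑ b, (univ.filter fun r : C.Rows => r.1 = b).card := by
      rw [← card_univ]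
      exact card_eq_sum_card_fiberwise (fun _ _ => by simp)
    rw [h1, ← sum_congr rfl (fun b _ => hfib b), sum_add_distrib, sum_const, card_univ, hκ]
    have h2 : ∑ b, C.ex b = ℓ + 4 := by
      rw [Fintype.sum_sum_type, ← hsum]
      simp [ex]
    rw [h2, smul_eq_mul]
    obtain ⟨s', rfl⟩ : ∃ s', s = s' + 1 := ⟨s - 1, by omega⟩
    simp only [Nat.add_sub_cancel]
    nlinarith
  obtain ⟨ρ', hρ'⟩ := core_more hι C.ρ hcore
  exact ⟨Z ⊕ P, inferInstance, ρ', hκ, hρ'⟩

end Cfg

/-- the set `Z` of the construction -/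
abbrev ZT (m : ℕ) (e : Fin m → ℕ) : Type :=
  Σ T : {T : Finset (Fin m) // T.card = 3}, Fin (ram T.1 e - 1)

theorem card_ZT (m : ℕ) (e : Fin m → ℕ) : Fintype.card (ZT m e) =
    ∑ T ∈ (univ : Finset (Fin m)).powersetCard 3, (ram T e - 1) := by
  classical
  rw [Fintype.card_sigma]
  simp only [Fintype.card_fin]
  symm
  apply sum_subtype
  intro T
  rw [mem_powersetCard]
  exact ⟨fun h => h.2, fun h => ⟨subset_univ _, h⟩⟩

theorem lower {ℓ x : ℕ} (hx : x ∈ Cand ℓ) : 2 ≤ x ∧ HasCore x ℓ (x + 3) := by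
  classical
  obtain ⟨m, hm3, hmℓ, e, he, hsum, rfl⟩ := hx
  -- an entry at least two
  obtain ⟨r, hr⟩ : ∃ r, 2 ≤ e r := by
    by_contra h
    simp only [not_exists, not_le] at h
    have h1 : ∑ i, e i ≤ ∑ i : Fin m, 1 := sum_le_sum fun i _ => by have := h i; omega
    simp at h1
    omega
  -- the colourings
  have hcol : ∀ T : {T : Finset (Fin m) // T.card = 3}, ∃ χ : Fin (ram T.1 e - 1) →
      Fin (ram T.1 e - 1) → Fin m, (∀ i j, χ i j = χ j i) ∧ (∀ i j, i ≠ j → χ i j ∈ T.1) ∧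
      ∀ q ∈ T.1, ∀ B : Finset (Fin (ram T.1 e - 1)),
        (∀ i ∈ B, ∀ j ∈ B, i ≠ j → χ i j = q) → B.card ≤ e q := fun T =>
    not_ramProp_iff.1 ((le_ram_sub_one T.2).1 le_rfl)
  choose χ hχ1 hχ2 hχ3 using hcol
  let col : ZT m e → ZT m e → Fin m := fun z w => if h : w.1 = z.1 then
    χ z.1 z.2 (h ▸ w.2) else r
  have hcolT : ∀ (T : {T : Finset (Fin m) // T.card = 3}) (i j : Fin (ram T.1 e - 1)),
      col ⟨T, i⟩ ⟨T, j⟩ = χ T i j := by
    intro T i j
    simp only [col, dif_pos]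
  let C : Cfg (Fin m) (ZT m e) :=
    { e := e
      r := r
      e_pos := he
      e_r := hr
      hm := by simpa using hm3
      T := fun z => z.1.1
      T_card := fun z => z.1.2
      col := col
      col_comm := by
        rintro ⟨T, i⟩ ⟨T', j⟩ h _
        obtain rfl : T = T' := Subtype.ext h
        rw [hcolT, hcolT, hχ1]
      col_mem := by
        rintro ⟨T, i⟩ ⟨T', j⟩ h hne
        obtain rfl : T = T' := Subtype.ext h
        rw [hcolT]
        exact hχ2 T i j (fun h => hne (by rw [h]))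
      clique := by
        intro q B hqB hB
        rcases B.eq_empty_or_nonempty with h | ⟨z, hz⟩
        · rw [h]; simp
        obtain ⟨T, i0⟩ := z
        let B' : Finset (Fin (ram T.1 e - 1)) := univ.filter fun i => (⟨T, i⟩ : ZT m e) ∈ B
        have hBB : B = B'.map ⟨fun i => (⟨T, i⟩ : ZT m e), fun i j h => by simpa using h⟩ := by
          ext w
          rw [mem_map]
          constructor
          · intro hw
            obtain ⟨T', j⟩ := w
            have hT : T = T' := by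
              by_cases hne : (⟨T, i0⟩ : ZT m e) = ⟨T', j⟩
              · exact congrArg Sigma.fst hne
              · exact Subtype.ext (hB _ hz _ hw hne).1
            subst hT
            exact ⟨j, mem_filter.2 ⟨mem_univ _, hw⟩, rfl⟩
          · rintro ⟨i, hi, rfl⟩
            exact (mem_filter.1 hi).2
        rw [hBB, card_map]
        apply hχ3 T q (hqB _ hz) B'
        intro i hi j hj hij
        rw [← hcolT]
        exact (hB _ (mem_filter.1 hi).2 _ (mem_filter.1 hj).2 (fun h => hij (by simpa using h))).2 }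
  have hZ := card_ZT m e
  have hval : val m e = (m - 3) + Fintype.card (ZT m e) := by rw [hZ, val]
  have h2 : 2 ≤ val m e := by
    rw [val]
    by_cases hm : m = 3
    · subst hm
      have hc : (univ : Finset (Fin 3)).card = 3 := by simp
      have h3 : (univ : Finset (Fin 3)).powersetCard 3 = {univ} := by decide
      rw [h3, sum_singleton]
      have := two_le_ram hc (fun q _ => he q) (mem_univ r) hr
      omega
    · have h4 : ((univ : Finset (Fin m)).powersetCard 3).card ≤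
          ∑ T ∈ (univ : Finset (Fin m)).powersetCard 3, (ram T e - 1) := by
        rw [card_eq_sum_ones]
        exact sum_le_sum fun T hT => one_le_ram (mem_powersetCard.1 hT).2 (fun q _ => he q)
      have h5 : 1 ≤ ((univ : Finset (Fin m)).powersetCard 3).card := by
        rw [card_powersetCard, card_univ, Fintype.card_fin]
        exact Nat.choose_pos hm3
      omega
  refine ⟨h2, ?_⟩
  apply C.hasCore (by omega) _ hsum
  rw [hval, Fintype.card_fin]
  omega

end Pool.Agent.T6.H79.SC
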