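import Mathlib

set_option autoImplicit false

namespace Pool.Agent.T6.H79.SC

open Finset

/-- `A : Fin N → Perm (Fin v)`: `A r j` is the symbol in column `j` of row `r`; so `(A r).symm a`
is the column of the symbol `a` in row `r`.  The array is `(N,v,t)`-suitable if for every symbol
`a` and every set `S` of `t-1` other symbols some row has `a` to the left of every element
of `S`. -/
def Suitable (N v t : ℕ) (A : Fin N → Equiv.Perm (Fin v)) : Prop :=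
  ∀ a : Fin v, ∀ S : Finset (Fin v), a ∉ S → S.card = t - 1 →
    ∃ r : Fin N, ∀ b ∈ S, (A r).symm a < (A r).symm b

/-- `V(t,N) = v`. -/
def IsV (t N v : ℕ) : Prop :=
  IsGreatest {v : ℕ | 1 ≤ v ∧ ∃ A : Fin N → Equiv.Perm (Fin v), Suitable N v t A} v

/-- `IsThreshold ℓ s₀`: `s₀` is the least positive integer such that
`σ(2s+1,(s+1)²+ℓ) = s+2` (that is `V(2s+1,(s+1)²+ℓ) = (s+1)²+ℓ+(s+2)`) for all `s ≥ s₀`. -/
def IsThreshold (ℓ s₀ : ℕ) : Prop :=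
  IsLeast {s₀ : ℕ | 1 ≤ s₀ ∧ ∀ s, s₀ ≤ s →
    IsV (2 * s + 1) ((s + 1) ^ 2 + ℓ) ((s + 1) ^ 2 + ℓ + (s + 2))} s₀

/-- Every colouring of the edges of the complete graph on `n` vertices with the colours in `T`
has, for some colour `q ∈ T`, a clique of `e q + 1` vertices all of whose edges have colour `q`. -/
def RamProp {γ : Type*} (T : Finset γ) (e : γ → ℕ) (n : ℕ) : Prop :=
  ∀ χ : Fin n → Fin n → γ, (∀ i j, χ i j = χ j i) → (∀ i j, i ≠ j → χ i j ∈ T) →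
    ∃ q ∈ T, ∃ B : Finset (Fin n), B.card = e q + 1 ∧ ∀ i ∈ B, ∀ j ∈ B, i ≠ j → χ i j = q

/-- The multicolour Ramsey number with colour set `T` and clique sizes `e q + 1`, `q ∈ T`. -/
noncomputable def ram {γ : Type*} (T : Finset γ) (e : γ → ℕ) : ℕ :=
  sInf {n : ℕ | RamProp T e n}

/-- The value of the vector `e` with `m` entries:
`m - 3 + ∑ over 3-subsets T of (R(e_i+1 : i ∈ T) - 1)`. -/
noncomputable def val (m : ℕ) (e : Fin m → ℕ) : ℕ :=
  (m - 3) + ∑ T ∈ (univ : Finset (Fin m)).powersetCard 3, (ram T e - 1)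

/-- The candidates: all values of vectors of `m` positive integers with sum `ℓ + 4`,
`3 ≤ m ≤ ℓ + 3`. -/
def Cand (ℓ : ℕ) : Set ℕ :=
  {x | ∃ m : ℕ, 3 ≤ m ∧ m ≤ ℓ + 3 ∧ ∃ e : Fin m → ℕ, (∀ i, 1 ≤ e i) ∧ ∑ i, e i = ℓ + 4 ∧
    x = val m e}

/-- The recursive upper bound for three colours. -/
def U : ℕ → ℕ → ℕ → ℕ
  | 0, _, _ => 0
  | _ + 1, 0, _ => 0
  | _ + 1, _ + 1, 0 => 0
  | a + 1, b + 1, c + 1 => 1 + U a (b + 1) (c + 1) + U (a + 1) b (c + 1) + U (a + 1) (b + 1) c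
termination_by a b c => a + b + c

/-- Module G (lower bound by counting). -/
def StmtG : Prop := ∀ {γ : Type} [DecidableEq γ] (T : Finset γ) (e : γ → ℕ) (j : ℕ), T.card = 3 →
  1 ≤ j → (∀ q ∈ T, 2 * j ≤ e q) → ¬ RamProp T e (3 ^ j)

/-- Module P (parity argument for R(3,4) = 9): a colouring of a set of 9 vertices with the colours
`i`, `j`, `k` has an edge of colour `k`, or a triangle of colour `j`, or a `K₄` of colour `i`. -/
def StmtP : Prop := ∀ {γ ν : Type} [DecidableEq γ] [DecidableEq ν] (χ : ν → ν → γ) (i j : γ),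
  i ≠ j → (∀ u v, χ u v = χ v u) → ∀ A : Finset ν, A.card = 9 →
  (∀ u ∈ A, ∀ v ∈ A, u ≠ v → χ u v = i ∨ χ u v = j) →
  (∃ B ⊆ A, B.card = 4 ∧ ∀ u ∈ B, ∀ v ∈ B, u ≠ v → χ u v = i) ∨
  (∃ B ⊆ A, B.card = 3 ∧ ∀ u ∈ B, ∀ v ∈ B, u ≠ v → χ u v = j)

end Pool.Agent.T6.H79.SC
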