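import Pool.Agent.T6.H79.SC.B3
import Pool.Agent.T6.H79.SC.C3

set_option autoImplicit false

namespace Pool.Agent.T6.H79.SC

open Finset

theorem ram_le_pow {m : ℕ} {T : Finset (Fin m)} (hT : T.card = 3) (e : Fin m → ℕ) :
    2 * (ram T e - 1) + 1 ≤ 3 ^ (∑ i ∈ T, e i) := by
  obtain ⟨i, j, k, hij, hik, hjk, hT'⟩ := card_eq_three.1 hT
  obtain ⟨u, hu, hb⟩ := (exists_bd _ (e i) (e j) (e k) le_rfl).2
  have h1 := ram_sub_one_le hij hik hjk hT' hb
  have h2 : ∑ i ∈ T, e i = e i + e j + e k := by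
    rw [hT', sum_insert (by simp [hij, hik]), sum_pair hjk]
    ring
  rw [h2, ← hu]
  omega

theorem choose_bound : ∀ n : ℕ, (n + 4).choose 3 ≤ 4 * 3 ^ n := by
  intro n
  induction n with
  | zero => decide
  | succ n ih =>
    have h1 : (n + 4 + 1).choose 3 = (n + 4).choose 2 + (n + 4).choose 3 :=
      Nat.choose_succ_succ' (n + 4) 2
    have h2 : (n + 4).choose 2 ≤ 2 * (n + 4).choose 3 := by
      have h3 := Nat.choose_succ_right_eq (n + 4) 2
      have h4 : n + 4 - 2 = n + 2 := by omega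
      rw [h4] at h3
      have h5 : (n + 4).choose (2 + 1) = (n + 4).choose 3 := rfl
      rw [h5] at h3
      nlinarith [Nat.zero_le ((n + 4).choose 2)]
    have h6 : n + 1 + 4 = n + 4 + 1 := by ring
    rw [h6, h1, pow_succ]
    omega

theorem val_le {ℓ m : ℕ} (hm3 : 3 ≤ m) (hmℓ : m ≤ ℓ + 3) (e : Fin m → ℕ) (he : ∀ i, 1 ≤ e i)
    (hsum : ∑ i, e i = ℓ + 4) : val m e < 2 * 3 ^ (ℓ + 3) := by
  classical
  -- the sum over a 3-subset
  have hT : ∀ T ∈ (univ : Finset (Fin m)).powersetCard 3, ∑ i ∈ T, e i ≤ ℓ + 7 - m := by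
    intro T hT
    have hT3 := (mem_powersetCard.1 hT).2
    have h1 : ∑ i ∈ T, e i + ∑ i ∈ Tᶜ, e i = ℓ + 4 := by rw [sum_add_sum_compl, hsum]
    have h2 : (Tᶜ).card ≤ ∑ i ∈ Tᶜ, e i := by
      rw [card_eq_sum_ones]
      exact sum_le_sum fun i _ => he i
    rw [card_compl, hT3, Fintype.card_fin] at h2
    omega
  have h1 : 2 * (∑ T ∈ (univ : Finset (Fin m)).powersetCard 3, (ram T e - 1)) + m.choose 3 ≤
      m.choose 3 * 3 ^ (ℓ + 7 - m) := by
    have h2 : ∑ T ∈ (univ : Finset (Fin m)).powersetCard 3, (2 * (ram T e - 1) + 1) ≤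
        ∑ _T ∈ (univ : Finset (Fin m)).powersetCard 3, 3 ^ (ℓ + 7 - m) := by
      refine sum_le_sum fun T hT' => ?_
      exact (ram_le_pow (mem_powersetCard.1 hT').2 e).trans
        (Nat.pow_le_pow_right (by omega) (hT T hT'))
    rw [sum_const, smul_eq_mul, card_powersetCard, card_univ, Fintype.card_fin,
      sum_add_distrib, ← mul_sum] at h2
    simpa using h2
  have h3 : 2 * (m - 3) + 1 ≤ m.choose 3 := by
    obtain ⟨n, rfl⟩ := Nat.exists_eq_add_of_le hm3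
    have : ∀ n : ℕ, 2 * n + 1 ≤ (3 + n).choose 3 := by
      intro n
      induction n with
      | zero => decide
      | succ n ih =>
        have h4 : (3 + n + 1).choose 3 = (3 + n).choose 2 + (3 + n).choose 3 :=
          Nat.choose_succ_succ' (3 + n) 2
        have h5 : 2 ≤ (3 + n).choose 2 := by
          have : (3 : ℕ).choose 2 ≤ (3 + n).choose 2 := Nat.choose_le_choose 2 (by omega)
          have h : (3 : ℕ).choose 2 = 3 := by decide
          omega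
        rw [← add_assoc, h4]
        omega
    have := this n
    omega
  have h4 : m.choose 3 * 3 ^ (ℓ + 7 - m) ≤ 4 * 3 ^ (ℓ + 3) := by
    rcases Nat.lt_or_ge m 4 with h | h
    · have hm : m = 3 := by omega
      subst hm
      have e1 : (3 : ℕ).choose 3 = 1 := by decide
      have e2 : ℓ + 7 - 3 = ℓ + 3 + 1 := by omega
      rw [e1, e2, pow_succ]
      have : 0 < 3 ^ (ℓ + 3) := by positivity
      omega
    · obtain ⟨n, rfl⟩ := Nat.exists_eq_add_of_le h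
      have e1 : ℓ + 3 = n + (ℓ + 7 - (4 + n)) := by omega
      have e2 := choose_bound n
      rw [e1, pow_add, ← mul_assoc, add_comm 4 n]
      exact Nat.mul_le_mul_right _ e2
  rw [val]
  omega

theorem cand_le {ℓ x : ℕ} (hx : x ∈ Cand ℓ) : x < 2 * 3 ^ (ℓ + 3) := by
  obtain ⟨m, hm3, hmℓ, e, he, hsum, rfl⟩ := hx
  exact val_le hm3 hmℓ e he hsum

theorem cand_e2 (ℓ : ℕ) : val (ℓ + 2 + 1) (e2 (ℓ + 2)) ∈ Cand ℓ :=
  ⟨ℓ + 2 + 1, by omega, by omega, e2 (ℓ + 2), e2_pos _, by rw [e2_sum], rfl⟩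

theorem exists_greatest (ℓ : ℕ) : ∃ M, IsGreatest (Cand ℓ) M := by
  have hne : (Cand ℓ).Nonempty := ⟨_, cand_e2 ℓ⟩
  have hb : BddAbove (Cand ℓ) := ⟨2 * 3 ^ (ℓ + 3), fun x hx => (cand_le hx).le⟩
  exact ⟨sSup (Cand ℓ), Nat.sSup_mem hne hb, fun x hx => le_csSup hb hx⟩

/-- the exact formula -/
theorem threshold {ℓ M : ℕ} (hM : IsGreatest (Cand ℓ) M) : IsThreshold ℓ (M + 1) := by
  have h2 := (lower hM.1).1
  refine ⟨⟨by omega, ?_⟩, ?_⟩
  · intro s hs
    rw [isV_iff]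
    refine ⟨lower_core s ℓ, fun h => ?_⟩
    obtain ⟨x, hx, hsx⟩ := upper (by omega) h
    have := hM.2 hx
    omega
  · rintro s₀ ⟨_, hs₀⟩
    by_contra hlt
    rw [not_le] at hlt
    have h3 := (isV_iff M ℓ).1 (hs₀ M (by omega))
    exact h3.2 (lower hM.1).2

theorem threshold_unique {ℓ M s₀ : ℕ} (hM : IsGreatest (Cand ℓ) M) (hs : IsThreshold ℓ s₀) :
    s₀ = M + 1 := hs.unique (threshold hM)

/-- a way to read off the value -/
theorem threshold_of {ℓ v : ℕ} (hv : v ≤ ℓ + ((ℓ + 3).choose 3 + (ℓ + 2).choose 2))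
    (h : ∀ x ∈ Cand ℓ, x ≤ v) : IsThreshold ℓ (v + 1) := by
  apply threshold
  have h1 := h _ (cand_e2 ℓ)
  have h2 := val_e2_ge (ℓ + 2)
  have h3 : ℓ + 2 - 2 = ℓ := by omega
  rw [h3] at h2
  have h4 : ℓ + ((ℓ + 3).choose 3 + (ℓ + 2).choose 2) ≤ val (ℓ + 2 + 1) (e2 (ℓ + 2)) := h2
  have h5 : val (ℓ + 2 + 1) (e2 (ℓ + 2)) = v := by omega
  exact ⟨h5 ▸ cand_e2 ℓ, h⟩

end Pool.Agent.T6.H79.SC
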