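import Pool.Agent.T6.H79.SC.Defs

/-!
Project SC (helper79), MP_cb8ad4_co, module P: `R(4,3) ≤ 9`.
-/

set_option autoImplicit false

namespace Pool.Agent.T6.H79.SC

open Finset

theorem stmtP : StmtP := by
  classical
  intro γ ν _ _ χ i j hij hsym A hA hcol
  by_contra hcon
  push Not at hcon
  obtain ⟨h4, h3⟩ := hcon
  -- no triangle of colour `j`
  have tri : ∀ a ∈ A, ∀ b ∈ A, ∀ c ∈ A, a ≠ b → a ≠ c → b ≠ c → χ a b = j → χ a c = j →
      χ b c = j → False := by
    intro a ha b hb c hc hab hac hbc e1 e2 e3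
    obtain ⟨u, hu, v, hv, huv, hne⟩ := h3 {a, b, c}
      (by intro x hx; simp only [mem_insert, mem_singleton] at hx
          rcases hx with rfl | rfl | rfl <;> assumption)
      (by rw [card_eq_three]; exact ⟨a, b, c, hab, hac, hbc, rfl⟩)
    simp only [mem_insert, mem_singleton] at hu hv
    rcases hu with rfl | rfl | rfl <;> rcases hv with rfl | rfl | rfl
    · exact huv rfl
    · exact hne e1
    · exact hne e2
    · exact hne (by rw [hsym]; exact e1)
    · exact huv rfl
    · exact hne e3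
    · exact hne (by rw [hsym]; exact e2)
    · exact hne (by rw [hsym]; exact e3)
    · exact huv rfl
  -- no `K₄` of colour `i`
  have quad : ∀ a ∈ A, ∀ b ∈ A, ∀ c ∈ A, ∀ d ∈ A, a ≠ b → a ≠ c → a ≠ d → b ≠ c → b ≠ d →
      c ≠ d → χ a b = i → χ a c = i → χ a d = i → χ b c = i → χ b d = i → χ c d = i →
      False := by
    intro a ha b hb c hc d hd hab hac had hbc hbd hcd e1 e2 e3 e4 e5 e6
    obtain ⟨u, hu, v, hv, huv, hne⟩ := h4 {a, b, c, d}
      (by intro x hx; simp only [mem_insert, mem_singleton] at hx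
          rcases hx with rfl | rfl | rfl | rfl <;> assumption)
      (by rw [card_insert_of_notMem (by simp [hab, hac, had]),
            card_eq_three.mpr ⟨b, c, d, hbc, hbd, hcd, rfl⟩])
    simp only [mem_insert, mem_singleton] at hu hv
    rcases hu with rfl | rfl | rfl | rfl <;> rcases hv with rfl | rfl | rfl | rfl
    · exact huv rfl
    · exact hne e1
    · exact hne e2
    · exact hne e3
    · exact hne (by rw [hsym]; exact e1)
    · exact huv rfl
    · exact hne e4
    · exact hne e5
    · exact hne (by rw [hsym]; exact e2)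
    · exact hne (by rw [hsym]; exact e4)
    · exact huv rfl
    · exact hne e6
    · exact hne (by rw [hsym]; exact e3)
    · exact hne (by rw [hsym]; exact e5)
    · exact hne (by rw [hsym]; exact e6)
    · exact huv rfl
  set J : ν → Finset ν := fun v => A.filter fun u => u ≠ v ∧ χ v u = j with hJ
  set I : ν → Finset ν := fun v => A.filter fun u => u ≠ v ∧ χ v u = i with hI
  have memJ : ∀ u v, u ∈ J v ↔ u ∈ A ∧ u ≠ v ∧ χ v u = j := fun u v => by simp [hJ]
  have memI : ∀ u v, u ∈ I v ↔ u ∈ A ∧ u ≠ v ∧ χ v u = i := fun u v => by simp [hI]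
  have hIJ : ∀ v ∈ A, (I v).card + (J v).card = 8 := by
    intro v hv
    have hdis : Disjoint (I v) (J v) := by
      rw [Finset.disjoint_left]
      intro u hu hu'
      exact hij (((memI u v).mp hu).2.2.symm.trans ((memJ u v).mp hu').2.2)
    rw [← card_union_of_disjoint hdis]
    have : I v ∪ J v = A.erase v := by
      ext u
      rw [mem_union, memI, memJ, mem_erase]
      constructor
      · rintro (h | h)
        · exact ⟨h.2.1, h.1⟩
        · exact ⟨h.2.1, h.1⟩
      · rintro ⟨h1, h2⟩
        rcases hcol v hv u h2 (Ne.symm h1) with h | h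
        · exact Or.inl ⟨h2, h1, h⟩
        · exact Or.inr ⟨h2, h1, h⟩
    rw [this, card_erase_of_mem hv, hA]
  have hJ3 : ∀ v ∈ A, (J v).card ≤ 3 := by
    intro v hv
    by_contra hlt
    push Not at hlt
    obtain ⟨B, hB, hBc⟩ := exists_subset_card_eq (show 4 ≤ (J v).card from hlt)
    have hBA : B ⊆ A := fun u hu => ((memJ u v).mp (hB hu)).1
    obtain ⟨u, hu, w, hw, huw, hne⟩ := h4 B hBA hBc
    obtain ⟨hu1, hu2, hu3⟩ := (memJ u v).mp (hB hu)
    obtain ⟨hw1, hw2, hw3⟩ := (memJ w v).mp (hB hw)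
    rcases hcol u hu1 w hw1 huw with h | h
    · exact hne h
    · exact tri v hv u hu1 w hw1 (Ne.symm hu2) (Ne.symm hw2) huw hu3 hw3 h
  have hI5 : ∀ v ∈ A, (I v).card ≤ 5 := by
    intro v hv
    by_contra hlt
    push Not at hlt
    obtain ⟨w, hw⟩ := card_pos.mp (show 0 < (I v).card by omega)
    obtain ⟨hw1, hw2, hw3⟩ := (memI w v).mp hw
    have hsplit : ((I v).erase w).card = (((I v).erase w).filter fun c => χ w c = i).card +
        (((I v).erase w).filter fun c => ¬ χ w c = i).card :=
      (card_filter_add_card_filter_not _).symm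
    rw [card_erase_of_mem hw] at hsplit
    rcases le_or_gt 3 (((I v).erase w).filter fun c => χ w c = i).card with h | h
    · obtain ⟨C, hC, hCc⟩ := exists_subset_card_eq h
      have hmem : ∀ c ∈ C, c ∈ A ∧ c ≠ w ∧ c ≠ v ∧ χ v c = i ∧ χ w c = i := by
        intro c hc
        have := hC hc
        rw [mem_filter, mem_erase, memI] at this
        exact ⟨this.1.2.1, this.1.1, this.1.2.2.1, this.1.2.2.2, this.2⟩
      obtain ⟨u, hu, u', hu', huu, hne⟩ := h3 C (fun c hc => (hmem c hc).1) hCc
      obtain ⟨a1, a2, a3, a4, a5⟩ := hmem u hu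
      obtain ⟨b1, b2, b3, b4, b5⟩ := hmem u' hu'
      rcases hcol u a1 u' b1 huu with e | e
      · exact quad v hv w hw1 u a1 u' b1 (Ne.symm hw2) (Ne.symm a3) (Ne.symm b3) (Ne.symm a2)
          (Ne.symm b2) huu hw3 a4 b4 a5 b5 e
      · exact hne e
    · have h' : 3 ≤ (((I v).erase w).filter fun c => ¬ χ w c = i).card := by omega
      obtain ⟨C, hC, hCc⟩ := exists_subset_card_eq h'
      have hmem : ∀ c ∈ C, c ∈ A ∧ c ≠ w ∧ c ≠ v ∧ χ v c = i ∧ χ w c = j := by
        intro c hc
        have := hC hc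
        rw [mem_filter, mem_erase, memI] at this
        exact ⟨this.1.2.1, this.1.1, this.1.2.2.1, this.1.2.2.2,
          (hcol w hw1 c this.1.2.1 (Ne.symm this.1.1)).resolve_left this.2⟩
      obtain ⟨a, b, c, hab, hac, hbc, rfl⟩ := card_eq_three.mp hCc
      obtain ⟨a1, a2, a3, a4, a5⟩ := hmem a (by simp)
      obtain ⟨b1, b2, b3, b4, b5⟩ := hmem b (by simp)
      obtain ⟨c1, c2, c3, c4, c5⟩ := hmem c (by simp)
      have key : ∀ x y, x ∈ A → y ∈ A → x ≠ w → y ≠ w → x ≠ y → χ w x = j → χ w y = j →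
          χ x y = i := by
        intro x y hx hy hxw hyw hxy ex ey
        rcases hcol x hx y hy hxy with e | e
        · exact e
        · exact (tri w hw1 x hx y hy (Ne.symm hxw) (Ne.symm hyw) hxy ex ey e).elim
      exact quad v hv a a1 b b1 c c1 (Ne.symm a3) (Ne.symm b3) (Ne.symm c3) hab hac hbc a4 b4 c4
        (key a b a1 b1 a2 b2 hab a5 b5) (key a c a1 c1 a2 c2 hac a5 c5)
        (key b c b1 c1 b2 c2 hbc b5 c5)
  have hJeq : ∀ v ∈ A, (J v).card = 3 := by
    intro v hv
    have := hIJ v hv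
    have := hJ3 v hv
    have := hI5 v hv
    omega
  -- parity
  set S : Finset (ν × ν) := (A ×ˢ A).filter fun p => p.2 ≠ p.1 ∧ χ p.1 p.2 = j with hS
  have hScard : S.card = 27 := by
    have h1 : S.card = ∑ v ∈ A, (J v).card := by
      rw [hS, card_filter, sum_product]
      refine sum_congr rfl fun v _ => ?_
      rw [hJ, card_filter]
    rw [h1, sum_congr rfl hJeq, sum_const, hA]
    rfl
  have hS0 : ∑ _p ∈ S, (1 : ZMod 2) = 0 := by
    refine sum_involution (fun p _ => p.swap) ?_ ?_ ?_ ?_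
    · intro p hp; decide
    · intro p hp _ he
      rw [hS, mem_filter] at hp
      have := congrArg Prod.fst he
      simp at this
      exact hp.2.1 this
    · intro p hp
      rw [hS, mem_filter, mem_product] at hp ⊢
      simp only [Prod.fst_swap, Prod.snd_swap]
      exact ⟨⟨hp.1.2, hp.1.1⟩, Ne.symm hp.2.1, by rw [hsym]; exact hp.2.2⟩
    · intro p hp; simp
  rw [sum_const, hScard] at hS0
  revert hS0
  decide

end Pool.Agent.T6.H79.SC
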