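import Pool.Agent.T6.H79.SC.E1
import Pool.Agent.T6.H79.SC.P

set_option autoImplicit false

namespace Pool.Agent.T6.H79.SC

open Finset

/-- table of upper bounds by the sum and the product of the three entries -/
def G (s p : ℕ) : ℕ :=
  if s = 3 then 1 else
  if s = 4 then 2 else
  if s = 5 then (if p = 3 then 3 else 5) else
  if s = 6 then (if p = 4 then 4 else if p = 6 then 8 else 16) else
  if s = 7 then (if p = 5 then 5 else if p = 8 then 13 else if p = 9 then 17 else 33) else 1000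

theorem bd_mono {a b c u v : ℕ} (h : Bd a b c u) (huv : u ≤ v) : Bd a b c v := by
  intro γ ν _ _ χ i j k hij hik hjk hs A h1 h2 h3 h4
  exact (h γ ν χ i j k hij hik hjk hs A h1 h2 h3 h4).trans huv

theorem bd_G (a b c : ℕ) (ha : 1 ≤ a) (hb : 1 ≤ b) (hc : 1 ≤ c) (h : a + b + c ≤ 7) :
    Bd a b c (G (a + b + c) (a * b * c)) := by
  have key : ∀ a ∈ range 6, ∀ b ∈ range 6, ∀ c ∈ range 6, 1 ≤ a → 1 ≤ b → 1 ≤ c →
    a + b + c ≤ 7 → UF (a + b + c) a b c ≤ G (a + b + c) (a * b * c) := by decide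
  exact bd_mono (bd_UF @stmtP _ a b c le_rfl)
    (key a (mem_range.2 (by omega)) b (mem_range.2 (by omega)) c (mem_range.2 (by omega))
      ha hb hc h)

theorem ram_le_G {m : ℕ} {T : Finset (Fin m)} (hT : T.card = 3) (e : Fin m → ℕ)
    (he : ∀ i, 1 ≤ e i) (hs : ∑ i ∈ T, e i ≤ 7) :
    ram T e - 1 ≤ G (∑ i ∈ T, e i) (∏ i ∈ T, e i) := by
  obtain ⟨i, j, k, hij, hik, hjk, hT'⟩ := card_eq_three.1 hT
  have h2 : ∑ i ∈ T, e i = e i + e j + e k := by
    rw [hT', sum_insert (by simp [hij, hik]), sum_pair hjk]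
    ring
  have h3 : ∏ i ∈ T, e i = e i * e j * e k := by
    rw [hT', prod_insert (by simp [hij, hik]), prod_pair hjk]
    ring
  rw [h2] at hs
  rw [h2, h3]
  exact ram_sub_one_le hij hik hjk hT' (bd_G _ _ _ (he i) (he j) (he k) hs)

/-- the computable upper bound of `val` -/
def valG (m : ℕ) (e : Fin m → ℕ) : ℕ :=
  (m - 3) + ∑ T ∈ (univ : Finset (Fin m)).powersetCard 3, G (∑ i ∈ T, e i) (∏ i ∈ T, e i)

theorem val_le_valG {m : ℕ} (e : Fin m → ℕ) (he : ∀ i, 1 ≤ e i) (hs : ∑ i, e i ≤ 7) :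
    val m e ≤ valG m e := by
  rw [val, valG]
  apply Nat.add_le_add_left
  refine sum_le_sum fun T hT => ?_
  apply ram_le_G (mem_powersetCard.1 hT).2 e he
  exact (sum_le_sum_of_subset (subset_univ T)).trans hs

/-- reduction to a finite check -/
theorem cand_check {ℓ v : ℕ} (hℓ : ℓ ≤ 3)
    (h : ∀ m ∈ Icc 3 (ℓ + 3), ∀ f ∈ Finset.Nat.antidiagonalTuple m (ℓ + 4 - m),
      valG m (fun i => f i + 1) ≤ v) : ∀ x ∈ Cand ℓ, x ≤ v := by
  rintro x ⟨m, hm3, hmℓ, e, he, hsum, rfl⟩
  have h1 : (fun i => (e i - 1) + 1) = e := by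
    funext i
    have := he i
    omega
  have h2 : ∑ i, (e i - 1) + m = ℓ + 4 := by
    have h4 : ∑ i, (e i - 1) + ∑ _i : Fin m, 1 = ℓ + 4 := by
      rw [← hsum, ← sum_add_distrib]
      refine sum_congr rfl fun i _ => ?_
      have := he i
      omega
    simpa using h4
  have h3 := h m (mem_Icc.2 ⟨hm3, hmℓ⟩) (fun i => e i - 1) (by
    rw [Finset.Nat.mem_antidiagonalTuple]
    omega)
  rw [h1] at h3
  exact (val_le_valG e he (by omega)).trans h3

theorem threshold_zero : IsThreshold 0 3 :=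
  threshold_of (v := 2) (by decide) (cand_check (by omega) (by decide))

theorem threshold_one : IsThreshold 1 9 :=
  threshold_of (v := 8) (by decide) (cand_check (by omega) (by decide))

set_option maxRecDepth 10000 in
theorem threshold_two : IsThreshold 2 19 :=
  threshold_of (v := 18) (by decide) (cand_check (by omega) (by decide +kernel))

set_option maxRecDepth 10000 in
theorem threshold_three : IsThreshold 3 34 :=
  threshold_of (v := 33) (by decide) (cand_check (by omega) (by decide +kernel))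

end Pool.Agent.T6.H79.SC
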