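import Pool.Agent.T6.H79.SC.Defs

/-!
Project SC (helper79), MP_cb8ad4_co, module G: Erdős' random lower bound for three colours.
-/

set_option autoImplicit false

namespace Pool.Agent.T6.H79.SC

open Finset

namespace ModG

/-- the pairs inside `B` -/
def prs {n : ℕ} (B : Finset (Fin n)) : Finset (Sym2 (Fin n)) :=
  B.offDiag.image (fun p => s(p.1, p.2))

theorem card_prs {n : ℕ} (B : Finset (Fin n)) : (prs B).card = B.card.choose 2 :=
  Sym2.card_image_offDiag B

/-- the colourings which are constant on the pairs inside `B` -/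
def bad {γ : Type} [DecidableEq γ] (T : Finset γ) {n : ℕ} (B : Finset (Fin n)) (q : T) :
    Finset (Sym2 (Fin n) → T) :=
  Fintype.piFinset (fun p => if p ∈ prs B then {q} else univ)

theorem card_bad {γ : Type} [DecidableEq γ] (T : Finset γ) (hT : T.card = 3) {n : ℕ}
    (B : Finset (Fin n)) (q : T) :
    (bad T B q).card * 3 ^ (B.card.choose 2) = 3 ^ (Fintype.card (Sym2 (Fin n))) := by
  unfold bad
  rw [Fintype.card_piFinset]
  have h1 : ∀ p : Sym2 (Fin n), (if p ∈ prs B then ({q} : Finset T) else univ).card =
      if p ∈ prs B then 1 else 3 := by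
    intro p
    split_ifs
    · simp
    · rw [Finset.card_univ, Fintype.card_coe, hT]
  simp only [h1]
  rw [← card_prs B, ← Finset.card_univ, ← Finset.prod_const, ← Finset.prod_const]
  have h2 : ∏ _p ∈ prs B, 3 = ∏ p : Sym2 (Fin n), (if p ∈ prs B then 3 else 1) := by
    rw [Finset.prod_ite_mem, Finset.univ_inter]
  rw [h2, ← Finset.prod_mul_distrib]
  refine Finset.prod_congr rfl fun p _ => ?_
  split_ifs <;> norm_num

end ModG

open ModG

theorem stmtG : StmtG := by
  intro γ _ T e j hT hj he hR
  set n := 3 ^ j with hn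
  set k := 2 * j + 1 with hk
  set M := 3 ^ (Fintype.card (Sym2 (Fin n))) with hM
  have hMpos : 0 < M := by positivity
  have hcov : (univ : Finset (Sym2 (Fin n) → T)) ⊆
      (powersetCard k (univ : Finset (Fin n))).biUnion
        fun B => (univ : Finset T).biUnion fun q => bad T B q := by
    intro f _
    obtain ⟨q, hq, B, hB, hBq⟩ := hR (fun u v => (f s(u, v) : γ))
      (fun u v => by rw [Sym2.eq_swap]) (fun u v _ => (f s(u, v)).2)
    have hle : k ≤ B.card := by
      rw [hB]
      have := he q hq
      omega
    obtain ⟨B', hB'B, hB'⟩ := Finset.exists_subset_card_eq hle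
    rw [Finset.mem_biUnion]
    refine ⟨B', by simp [Finset.mem_powersetCard, hB'], ?_⟩
    rw [Finset.mem_biUnion]
    refine ⟨⟨q, hq⟩, Finset.mem_univ _, ?_⟩
    unfold bad
    rw [Fintype.mem_piFinset]
    intro p
    split_ifs with hp
    · unfold prs at hp
      rw [Finset.mem_image] at hp
      obtain ⟨⟨u, v⟩, huv, rfl⟩ := hp
      rw [Finset.mem_offDiag] at huv
      rw [Finset.mem_singleton]
      exact Subtype.ext (hBq u (hB'B huv.1) v (hB'B huv.2.1) huv.2.2)
    · exact Finset.mem_univ _
  have hcardf : (univ : Finset (Sym2 (Fin n) → T)).card = M := by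
    rw [Finset.card_univ, Fintype.card_fun, Fintype.card_coe, hT]
  have hle1 : M ≤ ∑ B ∈ powersetCard k (univ : Finset (Fin n)), ∑ q : T, (bad T B q).card := by
    rw [← hcardf]
    refine (Finset.card_le_card hcov).trans (Finset.card_biUnion_le.trans ?_)
    exact Finset.sum_le_sum fun B _ => Finset.card_biUnion_le
  have hchoose : k.choose 2 = j * k := by
    rw [Nat.choose_two_right, hk]
    have : (2 * j + 1) * (2 * j + 1 - 1) = 2 * (j * (2 * j + 1)) := by
      rw [Nat.add_sub_cancel]; ring
    rw [this]
    omega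
  have hle2 : M * 3 ^ (j * k) ≤ n.choose k * (3 * M) := by
    calc M * 3 ^ (j * k) ≤
        (∑ B ∈ powersetCard k (univ : Finset (Fin n)), ∑ q : T, (bad T B q).card) * 3 ^ (j * k) :=
          Nat.mul_le_mul_right _ hle1
      _ = ∑ B ∈ powersetCard k (univ : Finset (Fin n)), ∑ q : T, M := by
          rw [Finset.sum_mul]
          refine Finset.sum_congr rfl fun B hB => ?_
          rw [Finset.sum_mul]
          refine Finset.sum_congr rfl fun q _ => ?_
          have hBc : B.card = k := (Finset.mem_powersetCard.mp hB).2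
          have := card_bad T hT B q
          rw [hBc, hchoose] at this
          exact this
      _ = n.choose k * (3 * M) := by
          rw [Finset.sum_const, Finset.card_powersetCard, Finset.card_univ, Fintype.card_fin,
            Finset.sum_const, Finset.card_univ, Fintype.card_coe, hT, smul_eq_mul, smul_eq_mul]
  have hle3 : 3 ^ (j * k) ≤ 3 * n.choose k := by
    have h : M * 3 ^ (j * k) ≤ M * (3 * n.choose k) := by
      calc M * 3 ^ (j * k) ≤ n.choose k * (3 * M) := hle2
        _ = M * (3 * n.choose k) := by ring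
    exact Nat.le_of_mul_le_mul_left h hMpos
  have hpow : 3 ^ (j * k) = n ^ k := by rw [hn, ← pow_mul]
  have hdesc : k.factorial * n.choose k ≤ n ^ k := by
    rw [← Nat.descFactorial_eq_factorial_mul_choose]
    exact Nat.descFactorial_le_pow n k
  have hfac : 6 ≤ k.factorial := by
    calc 6 = (3 : ℕ).factorial := rfl
      _ ≤ k.factorial := Nat.factorial_le (by omega)
  have hnk : 0 < n ^ k := by positivity
  have h6 : 6 * n.choose k ≤ n ^ k := (Nat.mul_le_mul_right _ hfac).trans hdesc
  rw [hpow] at hle3
  omega

end Pool.Agent.T6.H79.SC
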