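import Pool.Agent.T6.H79.SC.E2
import Pool.Agent.T6.H79.SC.G

set_option autoImplicit false

namespace Pool.Agent.T6.H79.SC

open Finset

/-- the three-colour Ramsey number `R(a+1, b+1, c+1)` -/
noncomputable def R3 (a b c : ℕ) : ℕ := ram (univ : Finset (Fin 3)) ![a, b, c]

theorem val_three (e : Fin 3 → ℕ) : val 3 e = ram (univ : Finset (Fin 3)) e - 1 := by
  have h3 : (univ : Finset (Fin 3)).powersetCard 3 = {univ} := by decide
  rw [val, h3, sum_singleton]
  simp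

theorem card3 : (univ : Finset (Fin 3)).card = 3 := by simp

theorem cand_three {ℓ a b c : ℕ} (ha : 1 ≤ a) (hb : 1 ≤ b) (hc : 1 ≤ c) (h : a + b + c = ℓ + 4) :
    R3 a b c - 1 ∈ Cand ℓ := by
  refine ⟨3, le_rfl, by omega, ![a, b, c], ?_, ?_, ?_⟩
  · intro i
    fin_cases i
    · exact ha
    · exact hb
    · exact hc
  · rw [Fin.sum_univ_three]
    simpa using h
  · rw [val_three, R3]

theorem growth_lower {ℓ s₀ : ℕ} (h : IsThreshold ℓ s₀) : 3 ^ ((ℓ + 4) / 6) < s₀ := by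
  obtain ⟨M, hM⟩ := exists_greatest ℓ
  rw [threshold_unique hM h]
  rcases Nat.eq_zero_or_pos ((ℓ + 4) / 6) with h0 | h0
  · rw [h0]
    have := (lower hM.1).1
    omega
  · set j := (ℓ + 4) / 6 with hj
    have h6 : 6 * j ≤ ℓ + 4 := by
      rw [hj]
      exact Nat.mul_div_le (ℓ + 4) 6
    have h1 := @stmtG (Fin 3) _ univ ![2 * j, 2 * j, ℓ + 4 - 4 * j] j card3 h0 (by
      intro q _
      fin_cases q
      · exact le_rfl
      · exact le_rfl
      · show 2 * j ≤ ℓ + 4 - 4 * j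
        omega)
    rw [← le_ram_sub_one card3] at h1
    have h2 := hM.2 (cand_three (ℓ := ℓ) (a := 2 * j) (b := 2 * j) (c := ℓ + 4 - 4 * j)
      (by omega) (by omega) (by omega) (by omega))
    have h3 : R3 (2 * j) (2 * j) (ℓ + 4 - 4 * j) - 1 ≤ M := h2
    rw [R3] at h3
    omega

theorem growth_upper {ℓ s₀ : ℕ} (h : IsThreshold ℓ s₀) : s₀ ≤ 2 * 3 ^ (ℓ + 3) := by
  obtain ⟨M, hM⟩ := exists_greatest ℓ
  rw [threshold_unique hM h]
  exact cand_le hM.1

theorem ramsey_lower {ℓ s₀ : ℕ} (h : IsThreshold ℓ s₀) {a b c : ℕ} (ha : 1 ≤ a) (hb : 1 ≤ b)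
    (hc : 1 ≤ c) (hs : a + b + c = ℓ + 4) : R3 a b c ≤ s₀ := by
  obtain ⟨M, hM⟩ := exists_greatest ℓ
  rw [threshold_unique hM h]
  have := hM.2 (cand_three ha hb hc hs)
  omega

theorem ram_mono {γ : Type} [DecidableEq γ] {T : Finset γ} (hT : T.card = 3) {e e' : γ → ℕ}
    (h : ∀ q ∈ T, e q ≤ e' q) : ram T e ≤ ram T e' := by
  by_contra hlt
  rw [not_le, lt_ram hT] at hlt
  apply hlt
  intro χ hs hc
  obtain ⟨q, hq, B, hB, hB2⟩ := ramProp_ram hT e' χ hs hc
  have h1 := h q hq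
  obtain ⟨B', hB', hcard⟩ := exists_subset_card_eq (show e q + 1 ≤ B.card by omega)
  exact ⟨q, hq, B', hcard, fun i hi j hj => hB2 i (hB' hi) j (hB' hj)⟩

theorem ramsey_upper {ℓ s₀ : ℕ} (h : IsThreshold ℓ s₀) : ∃ a b c : ℕ, 1 ≤ a ∧ 1 ≤ b ∧ 1 ≤ c ∧
    a + b + c = ℓ + 4 ∧ s₀ ≤ ℓ + 1 + (ℓ + 3).choose 3 * (R3 a b c - 1) := by
  classical
  obtain ⟨M, hM⟩ := exists_greatest ℓ
  rw [threshold_unique hM h]
  obtain ⟨m, hm3, hmℓ, e, he, hsum, hval⟩ := hM.1
  have hne : ((univ : Finset (Fin m)).powersetCard 3).Nonempty := by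
    rw [← card_pos, card_powersetCard, card_univ, Fintype.card_fin]
    exact Nat.choose_pos hm3
  obtain ⟨T, hT, hmax⟩ := exists_max_image _ (fun T => ram T e - 1) hne
  have hT3 := (mem_powersetCard.1 hT).2
  let f : Fin 3 ↪ Fin m := (Fin.castOrderIso hT3.symm).toEquiv.toEmbedding.trans
    (T.equivFin.symm.toEmbedding.trans (Function.Embedding.subtype _))
  have hf : (univ : Finset (Fin 3)).map f = T := by
    ext y
    rw [mem_map]
    constructor
    · rintro ⟨i, _, rfl⟩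
      exact (T.equivFin.symm _).2
    · intro hy
      refine ⟨(Fin.castOrderIso hT3.symm).symm (T.equivFin ⟨y, hy⟩), mem_univ _, ?_⟩
      simp [f]
  have hsumT : ∑ i, e (f i) = ∑ i ∈ T, e i := by
    have h7 : ∑ a ∈ (univ : Finset (Fin 3)).map f, e a = ∑ i, e (f i) := sum_map _ _ _
    rw [← h7, hf]
  have hle : ∑ i ∈ T, e i ≤ ℓ + 4 := by
    rw [← hsum]
    exact sum_le_sum_of_subset (subset_univ T)
  rw [Fin.sum_univ_three] at hsumT
  refine ⟨ℓ + 4 - e (f 1) - e (f 2), e (f 1), e (f 2), ?_, he _, he _, ?_, ?_⟩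
  · have := he (f 0)
    omega
  · omega
  · have h1 : ram T e ≤ R3 (ℓ + 4 - e (f 1) - e (f 2)) (e (f 1)) (e (f 2)) := by
      rw [R3, ← hf, ram_map f card3]
      apply ram_mono card3
      intro q _
      fin_cases q
      · show e (f 0) ≤ ℓ + 4 - e (f 1) - e (f 2)
        omega
      · exact le_rfl
      · exact le_rfl
    have h2 : ∑ T ∈ (univ : Finset (Fin m)).powersetCard 3, (ram T e - 1) ≤
        (ℓ + 3).choose 3 * (ram T e - 1) := by
      have h3 := sum_le_card_nsmul _ _ _ hmax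
      rw [card_powersetCard, card_univ, Fintype.card_fin, smul_eq_mul] at h3
      exact h3.trans (Nat.mul_le_mul_right _ (Nat.choose_le_choose 3 hmℓ))
    have h4 : (ℓ + 3).choose 3 * (ram T e - 1) ≤ (ℓ + 3).choose 3 *
        (R3 (ℓ + 4 - e (f 1) - e (f 2)) (e (f 1)) (e (f 2)) - 1) :=
      Nat.mul_le_mul_left _ (by omega)
    rw [hval, val]
    omega

end Pool.Agent.T6.H79.SC
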