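import Pool.Agent.T6.H79.SC.E3

set_option autoImplicit false

namespace Pool.Agent.T6.H79.SC

open Finset

/-- the three classes of nonzero elements of `𝔽₁₆` modulo cubes -/
def cls (d : ℕ) : Fin 3 :=
  if d = 1 ∨ d = 8 ∨ d = 12 ∨ d = 10 ∨ d = 15 then 0
  else if d = 2 ∨ d = 3 ∨ d = 11 ∨ d = 7 ∨ d = 13 then 1 else 2

theorem cls_check : ∀ i j k : Fin 16, i ≠ j → i ≠ k → j ≠ k →
    ¬ (cls (i.1 ^^^ j.1) = cls (i.1 ^^^ k.1) ∧ cls (i.1 ^^^ j.1) = cls (j.1 ^^^ k.1)) := by
  decide +kernel

theorem not_ram222 : ¬ RamProp (univ : Finset (Fin 3)) (fun _ => 2) 16 := by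
  intro h
  obtain ⟨q, _, B, hB, hB2⟩ := h (fun i j => cls (i.1 ^^^ j.1))
    (fun i j => by simp only [Nat.xor_comm]) (fun _ _ _ => mem_univ _)
  obtain ⟨i, j, k, hij, hik, hjk, rfl⟩ := card_eq_three.1 hB
  have h1 := hB2 i (by simp) j (by simp) hij
  have h2 := hB2 i (by simp) k (by simp) hik
  have h3 := hB2 j (by simp) k (by simp) hjk
  exact cls_check i j k hij hik hjk ⟨h1.trans h2.symm, h1.trans h3.symm⟩

theorem ram222 {m : ℕ} {T : Finset (Fin m)} (hT3 : T.card = 3) :
    16 ≤ ram T (fun _ => 2) - 1 := by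
  classical
  let f : Fin 3 ↪ Fin m := (Fin.castOrderIso hT3.symm).toEquiv.toEmbedding.trans
    (T.equivFin.symm.toEmbedding.trans (Function.Embedding.subtype _))
  have hf : (univ : Finset (Fin 3)).map f = T := by
    ext y
    rw [mem_map]
    constructor
    · rintro ⟨i, _, rfl⟩
      exact (T.equivFin.symm _).2
    · intro hy
      refine ⟨(Fin.castOrderIso hT3.symm).symm (T.equivFin ⟨y, hy⟩), mem_univ _, ?_⟩
      simp [f]
  rw [← hf, ram_map f card3, le_ram_sub_one card3]
  exact not_ram222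

theorem val_2222 : 65 ≤ val 4 (fun _ => 2) := by
  have h1 : ∑ _T ∈ (univ : Finset (Fin 4)).powersetCard 3, 16 ≤
      ∑ T ∈ (univ : Finset (Fin 4)).powersetCard 3, (ram T (fun _ => 2) - 1) :=
    sum_le_sum fun T hT => ram222 (mem_powersetCard.1 hT).2
  rw [sum_const, card_powersetCard, card_univ, Fintype.card_fin] at h1
  have h2 : (4 : ℕ).choose 3 = 4 := by decide
  rw [h2] at h1
  rw [val]
  simp only [smul_eq_mul] at h1
  omega

theorem cand_2222 : val 4 (fun _ => 2) ∈ Cand 4 :=
  ⟨4, by omega, by omega, fun _ => 2, fun _ => (by norm_num : 1 ≤ 2), by simp, rfl⟩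

theorem ram_perm (f : Equiv.Perm (Fin 3)) (e : Fin 3 → ℕ) :
    ram (univ : Finset (Fin 3)) e = ram (univ : Finset (Fin 3)) (e ∘ f) := by
  have h : ram ((univ : Finset (Fin 3)).map f.toEmbedding) e = ram univ (e ∘ f) :=
    ram_map f.toEmbedding card3 e
  rw [← h]
  congr 1
  simp

theorem UF_check : ∀ a ∈ range 7, ∀ b ∈ range 7, ∀ c ∈ range 7, 1 ≤ a → 1 ≤ b → 1 ≤ c →
    a + b + c = 8 → UF 8 a b c ≤ 65 ∨ (a = 3 ∧ b = 3 ∧ c = 2) ∨ (a = 3 ∧ b = 2 ∧ c = 3) ∨
      (a = 2 ∧ b = 3 ∧ c = 3) := by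
  decide +kernel

theorem valG_check : ∀ m ∈ Icc 4 7, ∀ f ∈ Finset.Nat.antidiagonalTuple m (8 - m),
      valG m (fun i => f i + 1) ≤ 65 := by
  decide +kernel

theorem cand_four {x : ℕ} (hx : x ∈ Cand 4) : x ≤ max 65 (R3 3 3 2 - 1) := by
  classical
  obtain ⟨m, hm3, hm7, e, he, hsum, rfl⟩ := hx
  by_cases hm : m = 3
  · subst hm
    rw [val_three]
    rw [Fin.sum_univ_three] at hsum
    have hbound := UF_check (e 0) (mem_range.2 (by have := he 1; have := he 2; omega)) (e 1)
      (mem_range.2 (by have := he 0; have := he 2; omega)) (e 2)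
      (mem_range.2 (by have := he 0; have := he 1; omega)) (he 0) (he 1) (he 2) hsum
    rcases hbound with h | h | h | h
    · have h1 := ram_sub_one_le (T := (univ : Finset (Fin 3))) (e := e) (i := 0) (j := 1) (k := 2)
        (by decide) (by decide) (by decide) (by decide)
        (bd_UF @stmtP 8 (e 0) (e 1) (e 2) (by omega))
      omega
    · have h1 : e = ![3, 3, 2] := by
        funext i; fin_cases i
        · exact h.1
        · exact h.2.1
        · exact h.2.2
      rw [h1, R3]
      exact le_max_right _ _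
    · have h1 : e ∘ (Equiv.swap 1 2 : Equiv.Perm (Fin 3)) = ![3, 3, 2] := by
        funext i; fin_cases i
        · exact h.1
        · exact h.2.2
        · exact h.2.1
      rw [ram_perm (Equiv.swap 1 2) e, h1, R3]
      exact le_max_right _ _
    · have h1 : e ∘ (Equiv.swap 0 2 : Equiv.Perm (Fin 3)) = ![3, 3, 2] := by
        funext i; fin_cases i
        · exact h.2.2
        · exact h.2.1
        · exact h.1
      rw [ram_perm (Equiv.swap 0 2) e, h1, R3]
      exact le_max_right _ _
  · have h1 : (fun i => (e i - 1) + 1) = e := by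
      funext i
      have := he i
      omega
    have h2 : ∑ i, (e i - 1) + m = 4 + 4 := by
      have h4 : ∑ i, (e i - 1) + ∑ _i : Fin m, 1 = 4 + 4 := by
        rw [← hsum, ← sum_add_distrib]
        refine sum_congr rfl fun i _ => ?_
        have := he i
        omega
      simpa using h4
    have h3 := valG_check m (mem_Icc.2 ⟨by omega, by omega⟩) (fun i => e i - 1) (by
      rw [Finset.Nat.mem_antidiagonalTuple]
      omega)
    rw [h1] at h3
    have h5 : val m e ≤ valG m e := by
      rw [val, valG]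
      apply Nat.add_le_add_left
      refine sum_le_sum fun T hT => ?_
      have hT3 := (mem_powersetCard.1 hT).2
      apply ram_le_G hT3 e he
      have h6 : ∑ i ∈ T, e i + ∑ i ∈ Tᶜ, e i = 4 + 4 := by rw [sum_add_sum_compl, hsum]
      have h7 : (Tᶜ).card ≤ ∑ i ∈ Tᶜ, e i := by
        rw [card_eq_sum_ones]
        exact sum_le_sum fun i _ => he i
      rw [card_compl, hT3, Fintype.card_fin] at h7
      omega
    exact (h5.trans h3).trans (le_max_left _ _)

theorem threshold_four : IsThreshold 4 (max 66 (R3 3 3 2)) := by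
  have h1 : IsGreatest (Cand 4) (max 65 (R3 3 3 2 - 1)) := by
    refine ⟨?_, fun x hx => cand_four hx⟩
    rcases le_total (R3 3 3 2 - 1) 65 with h | h
    · have h2 := cand_four cand_2222
      have h3 := val_2222
      rw [max_eq_left h] at h2 ⊢
      have h4 : val 4 (fun _ => 2) = 65 := by omega
      rw [← h4]
      exact cand_2222
    · rw [max_eq_right h]
      exact cand_three (ℓ := 4) (by omega) (by omega) (by omega) (by omega)
  have h2 := threshold h1
  have h3 : max 65 (R3 3 3 2 - 1) + 1 = max 66 (R3 3 3 2) := by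
    rcases le_total (R3 3 3 2) 66 with h | h
    · rw [max_eq_left h, max_eq_left (by omega)]
    · rw [max_eq_right h, max_eq_right (by omega)]
      omega
  rwa [h3] at h2

end Pool.Agent.T6.H79.SC
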